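import Pool.Agent.Lib.MP_c1a8e2_al.h31.Arc

/-!
# Large multiplicities: the window property
-/

set_option autoImplicit false

open Finset Polynomial

namespace Pool.Agent.Lib.MP_c1a8e2_al

private theorem top_sum_mul (g : ℕ → ℝ) (n L : ℕ) :
    ∑ k0 ∈ range L, ∑ i ∈ range n, g (k0 + i * L) = ∑ k ∈ range (n * L), g k := by
  rw [Finset.sum_comm]
  induction n with
  | zero => simp
  | succ n ih =>
    rw [Finset.sum_range_succ, ih, Nat.succ_mul, Finset.sum_range_add]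
    congr 1
    refine Finset.sum_congr rfl fun k0 _ => ?_
    rw [add_comm]

private theorem top_pow {y : ℝ} (hy : -1 ≤ y) (s : ℕ) : -1 ≤ y ^ s := by
  rcases le_or_gt 0 y with h | h
  · exact le_trans (by norm_num) (pow_nonneg h s)
  · have h1 : |y ^ s| ≤ 1 := by
      rw [abs_pow]
      exact pow_le_one₀ (abs_nonneg _) (by rw [abs_le]; constructor <;> linarith)
    exact (abs_le.1 h1).1

private theorem top_num (r s : ℕ) (h : 5 * r + 5 ≤ s) :
    3 * ((r : ℝ) + 1) * ((2 * √2 * (r + 1)) ^ r / (r.factorial : ℝ)) ^ 2 < (1 + √2) ^ s := by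
  have h2 : √2 * √2 = 2 := Real.mul_self_sqrt (by norm_num)
  have hs0 : (0 : ℝ) ≤ √2 := Real.sqrt_nonneg _
  have hs : (1.4142 : ℝ) ≤ √2 := by
    apply Real.le_sqrt_of_sq_le
    norm_num
  have hfac : (0 : ℝ) < (r.factorial : ℝ) := by exact_mod_cast r.factorial_pos
  have hm : (0 : ℝ) < (r : ℝ) + 1 := by positivity
  have he := Real.pow_div_factorial_le_exp (x := (r : ℝ) + 1) hm.le r
  have he2 : Real.exp ((r : ℝ) + 1) ≤ 2.7183 ^ (r + 1) := by
    have h3 : Real.exp ((r : ℝ) + 1) = Real.exp 1 ^ (r + 1) := by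
      rw [← Real.exp_nat_mul]
      push_cast
      rw [mul_one]
    rw [h3]
    have h4 := Real.exp_one_lt_d9
    exact pow_le_pow_left₀ (Real.exp_pos _).le (by linarith) _
  have hL : ((2 * √2 * (r + 1)) ^ r / (r.factorial : ℝ)) ^ 2 ≤ 8 ^ r * 7.3892 ^ (r + 1) := by
    have h3 : ((2 * √2 * ((r : ℝ) + 1)) ^ r / (r.factorial : ℝ)) ^ 2 =
        8 ^ r * ((((r : ℝ) + 1) ^ r / (r.factorial : ℝ)) ^ 2) := by
      rw [show (8 : ℝ) = (2 * √2) ^ 2 by rw [mul_pow, sq √2, h2]; norm_num, ← pow_mul, mul_comm 2 r,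
        pow_mul, mul_pow (2 * √2)]
      rw [mul_div_assoc, mul_pow, ← pow_mul]
    rw [h3]
    have h4 : (((r : ℝ) + 1) ^ r / (r.factorial : ℝ)) ^ 2 ≤ 7.3892 ^ (r + 1) := by
      calc (((r : ℝ) + 1) ^ r / (r.factorial : ℝ)) ^ 2 ≤ (2.7183 ^ (r + 1)) ^ 2 :=
            pow_le_pow_left₀ (by positivity) (he.trans he2) 2
        _ = (2.7183 ^ 2) ^ (r + 1) := by rw [← pow_mul, ← pow_mul, mul_comm]
        _ ≤ 7.3892 ^ (r + 1) := pow_le_pow_left₀ (by norm_num) (by norm_num) _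
    exact mul_le_mul_of_nonneg_left h4 (by positivity)
  have h5 : (82 : ℝ) ≤ (1 + √2) ^ 5 := by
    have h6 : (1 + √2) ^ 5 = 41 + 29 * √2 := by
      have h7 : √2 ^ 2 = 2 := by rw [sq, h2]
      have h8 : (1 + √2) ^ 2 = 3 + 2 * √2 := by ring_nf; rw [h7]; ring
      have h9 : (1 + √2) ^ 4 = 17 + 12 * √2 := by
        rw [show (1 + √2) ^ 4 = ((1 + √2) ^ 2) ^ 2 by ring, h8]; ring_nf; rw [h7]; ring
      rw [show (1 + √2) ^ 5 = (1 + √2) ^ 4 * (1 + √2) by ring, h9]; ring_nf; rw [h7]; ring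
    rw [h6]
    linarith
  have h6 : (82 : ℝ) ^ (r + 1) ≤ (1 + √2) ^ s := by
    calc (82 : ℝ) ^ (r + 1) ≤ ((1 + √2) ^ 5) ^ (r + 1) := pow_le_pow_left₀ (by norm_num) h5 _
      _ = (1 + √2) ^ (5 * (r + 1)) := by rw [← pow_mul]
      _ ≤ (1 + √2) ^ s := pow_le_pow_right₀ (by linarith) (by omega)
  have hb : 1 + ((r + 1 : ℕ) : ℝ) * 0.38 ≤ (1 + 0.38 : ℝ) ^ (r + 1) :=
    one_add_mul_le_pow (by norm_num) (r + 1)
  calc 3 * ((r : ℝ) + 1) * ((2 * √2 * (r + 1)) ^ r / (r.factorial : ℝ)) ^ 2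
      ≤ 3 * ((r : ℝ) + 1) * (8 ^ r * 7.3892 ^ (r + 1)) := by gcongr
    _ = (3 / 8 * ((r : ℝ) + 1)) * (8 * 7.3892) ^ (r + 1) := by
        rw [mul_pow, pow_succ (8 : ℝ) r]
        ring
    _ < (1 + 0.38) ^ (r + 1) * (8 * 7.3892) ^ (r + 1) := by
        apply mul_lt_mul_of_pos_right _ (by positivity)
        push_cast at hb
        linarith
    _ = ((1 + 0.38) * (8 * 7.3892)) ^ (r + 1) := by rw [← mul_pow]
    _ ≤ 82 ^ (r + 1) := pow_le_pow_left₀ (by norm_num) (by norm_num) _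
    _ ≤ (1 + √2) ^ s := h6

theorem win_top (N s : ℕ) (hsN : s < N) (h5 : 5 * (N - 1 - s) + 5 ≤ s) : Win ℂ N s := by
  intro G hdvd hhigh hmid
  obtain ⟨P, rfl⟩ := hdvd
  by_contra hG0
  have hP0 : P ≠ 0 := by
    rintro rfl
    exact hG0 (mul_zero _)
  have hfd : (X ^ 2 + X + 1 : ℂ[X]).natDegree = 2 := by compute_degree!
  have hf0 : (X ^ 2 + X + 1 : ℂ[X]) ≠ 0 := by
    intro h1
    rw [h1] at hfd
    simp at hfd
  obtain ⟨r, hr⟩ : ∃ r, r = N - 1 - s := ⟨_, rfl⟩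
  rw [← hr] at h5
  have hGd : ((X ^ 2 + X + 1 : ℂ[X]) ^ s * P).natDegree = s * 2 + P.natDegree := by
    rw [natDegree_mul (pow_ne_zero _ hf0) hP0, natDegree_pow, hfd]
  have hdeg : P.natDegree ≤ r := by
    by_contra hc
    have h2 := hhigh _ (show s + N ≤ ((X ^ 2 + X + 1 : ℂ[X]) ^ s * P).natDegree by
      rw [hGd]; omega)
    rw [coeff_natDegree, leadingCoeff_eq_zero] at h2
    exact hG0 h2
  -- the points
  obtain ⟨L, hL⟩ : ∃ L, L = 2 * (s + N) := ⟨_, rfl⟩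
  obtain ⟨M, hM⟩ : ∃ M, M = 4 * ((r + 1) * L) := ⟨_, rfl⟩
  have hL0 : 0 < L := by omega
  have hrL : L ≤ (r + 1) * L := Nat.le_mul_of_pos_left _ (by omega)
  have hM0 : 0 < M := by omega
  have hLr : (0 : ℝ) < L := by exact_mod_cast hL0
  have hMr : (0 : ℝ) < M := by exact_mod_cast hM0
  have hrr : (0 : ℝ) < (r : ℝ) + 1 := by positivity
  have hMe : (M : ℝ) = 4 * ((r + 1) * L) := by rw [hM]; push_cast; ring
  set θ : ℕ → ℝ := fun k => 2 * Real.pi * ((k : ℝ) - (r + 1) * L / 2) / M with hθ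
  set ζ : ℂ := Complex.exp (2 * Real.pi * Complex.I / M) with hζdef
  set c : ℂ := Complex.exp (Complex.I * ((θ 0 : ℝ) : ℂ)) with hcdef
  have hζ : IsPrimitiveRoot ζ M := Complex.isPrimitiveRoot_exp M hM0.ne'
  have hc : ‖c‖ = 1 := by rw [hcdef, mul_comm, Complex.norm_exp_ofReal_mul_I]
  have hw : ∀ k : ℕ, c * ζ ^ k = Complex.exp (Complex.I * ((θ k : ℝ) : ℂ)) := by
    intro k
    rw [hcdef, hζdef, ← Complex.exp_nat_mul, ← Complex.exp_add]
    congr 1
    simp only [hθ]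
    have : (M : ℂ) ≠ 0 := by exact_mod_cast hM0.ne'
    push_cast
    field_simp
    ring
  have hwn : ∀ k : ℕ, ‖c * ζ ^ k‖ = 1 := by
    intro k
    rw [hw k, mul_comm, Complex.norm_exp_ofReal_mul_I]
  have hre : ∀ k : ℕ, (c * ζ ^ k).re = Real.cos (θ k) := by
    intro k
    rw [hw k, mul_comm, Complex.exp_ofReal_mul_I_re]
  have hun : ∀ z : ℂ, ‖z‖ = 1 → z * starRingEnd ℂ z = 1 := by
    intro z hz
    rw [Complex.mul_conj, Complex.normSq_eq_norm_sq, hz]
    simp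
  -- the identity
  have hid : ∑ k ∈ range M, (1 + 2 * Real.cos (θ k)) ^ s * ‖P.eval (c * ζ ^ k)‖ ^ 2 = 0 := by
    have h1 : ∀ j ∈ range (r + 1), ∑ k ∈ range M, ((X ^ 2 + X + 1 : ℂ[X]) ^ s * P).eval (c * ζ ^ k) *
        (starRingEnd ℂ (c * ζ ^ k)) ^ (s + j) = 0 := by
      intro j hj
      have hj' := Finset.mem_range.1 hj
      rw [top_orth hM0 hζ hc _ (by rw [hGd]; omega) (s + j) (by omega),
        hmid (s + j) (by omega) (by omega), mul_zero]
    have h2 : ∀ k : ℕ, ∀ j : ℕ, ((X ^ 2 + X + 1 : ℂ[X]) ^ s * P).eval (c * ζ ^ k) *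
        (starRingEnd ℂ (c * ζ ^ k)) ^ (s + j) =
        ((1 + 2 * Real.cos (θ k) : ℝ) : ℂ) ^ s * P.eval (c * ζ ^ k) *
          (starRingEnd ℂ (c * ζ ^ k)) ^ j := by
      intro k j
      have h3 : ((c * ζ ^ k) ^ 2 + (c * ζ ^ k) + 1) * starRingEnd ℂ (c * ζ ^ k) =
          ((1 + 2 * Real.cos (θ k) : ℝ) : ℂ) := by
        have h4 := hun _ (hwn k)
        have h5 := Complex.add_conj (c * ζ ^ k)
        rw [hre k] at h5
        calc ((c * ζ ^ k) ^ 2 + (c * ζ ^ k) + 1) * starRingEnd ℂ (c * ζ ^ k)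
            = (c * ζ ^ k) * ((c * ζ ^ k) * starRingEnd ℂ (c * ζ ^ k)) +
              (c * ζ ^ k) * starRingEnd ℂ (c * ζ ^ k) + starRingEnd ℂ (c * ζ ^ k) := by ring
          _ = 1 + (c * ζ ^ k + starRingEnd ℂ (c * ζ ^ k)) := by rw [h4]; ring
          _ = _ := by rw [h5]; push_cast; ring
      rw [eval_mul, eval_pow, pow_add, ← h3, mul_pow]
      simp only [eval_add, eval_pow, eval_X, eval_one]
      ring
    have h3 : ∑ k ∈ range M, (((1 + 2 * Real.cos (θ k) : ℝ) : ℂ) ^ s * P.eval (c * ζ ^ k) *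
        starRingEnd ℂ (P.eval (c * ζ ^ k))) = 0 := by
      have h4 : ∀ k ∈ range M, ((1 + 2 * Real.cos (θ k) : ℝ) : ℂ) ^ s * P.eval (c * ζ ^ k) *
          starRingEnd ℂ (P.eval (c * ζ ^ k)) = ∑ j ∈ range (r + 1), starRingEnd ℂ (P.coeff j) *
          (((X ^ 2 + X + 1 : ℂ[X]) ^ s * P).eval (c * ζ ^ k) *
            (starRingEnd ℂ (c * ζ ^ k)) ^ (s + j)) := by
        intro k _
        have h5 : starRingEnd ℂ (P.eval (c * ζ ^ k)) = ∑ j ∈ range (r + 1),
            starRingEnd ℂ (P.coeff j) * (starRingEnd ℂ (c * ζ ^ k)) ^ j := by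
          rw [Polynomial.eval_eq_sum_range' (Nat.lt_succ_of_le hdeg), map_sum]
          refine Finset.sum_congr rfl fun j _ => ?_
          rw [map_mul, map_pow]
        rw [h5, Finset.mul_sum]
        refine Finset.sum_congr rfl fun j _ => ?_
        rw [h2 k j]
        ring
      rw [Finset.sum_congr rfl h4, Finset.sum_comm]
      refine Finset.sum_eq_zero fun j hj => ?_
      rw [← Finset.mul_sum, h1 j hj, mul_zero]
    have h6 : ((∑ k ∈ range M, (1 + 2 * Real.cos (θ k)) ^ s * ‖P.eval (c * ζ ^ k)‖ ^ 2 : ℝ) : ℂ) = 0 := by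
      rw [← h3]
      push_cast
      refine Finset.sum_congr rfl fun k _ => ?_
      rw [mul_assoc, Complex.mul_conj, Complex.normSq_eq_norm_sq]
      push_cast
      ring
    exact_mod_cast h6
  -- interpolation
  obtain ⟨A, hA⟩ : ∃ A, A = ∑ k ∈ range ((r + 1) * L), ‖P.eval (c * ζ ^ k)‖ ^ 2 := ⟨_, rfl⟩
  obtain ⟨Λ, hΛ⟩ : ∃ Λ : ℝ, Λ = ((2 * √2 * (r + 1)) ^ r / (r.factorial : ℝ)) ^ 2 := ⟨_, rfl⟩
  have hA0 : 0 ≤ A := by
    rw [hA]
    exact Finset.sum_nonneg fun k _ => by positivity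
  have hΛ0 : 0 ≤ Λ := by
    rw [hΛ]
    positivity
  have hall : ∀ z : ℂ, ‖z‖ = 1 → L * ‖P.eval z‖ ^ 2 ≤ Λ * A := by
    intro z hz
    have h1 : ∀ k0 ∈ range L, ‖P.eval z‖ ^ 2 ≤
        Λ * ∑ i ∈ range (r + 1), ‖P.eval (c * ζ ^ (k0 + i * L))‖ ^ 2 := by
      intro k0 _
      have h2 := top_interp r P hdeg (fun i => c * ζ ^ (k0 + i * L)) (fun i _ => hwn _) (by
        intro i hi j hj
        have h3 := top_dist r (θ k0) i j hi hj
        have h4 : ∀ i : ℕ, θ (k0 + i * L) = θ k0 + i * (Real.pi / (2 * (r + 1))) := by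
          intro i
          simp only [hθ]
          rw [hMe]
          push_cast
          field_simp
          ring
        rw [hw, hw, h4, h4]
        exact h3) (√(∑ i ∈ range (r + 1), ‖P.eval (c * ζ ^ (k0 + i * L))‖ ^ 2)) (by
        intro i hi
        apply Real.le_sqrt_of_sq_le
        exact Finset.single_le_sum (f := fun i => ‖P.eval (c * ζ ^ (k0 + i * L))‖ ^ 2)
          (fun i _ => by positivity) (Finset.mem_range.2 (Nat.lt_succ_of_le hi))) z hz
      calc ‖P.eval z‖ ^ 2 ≤ ((2 * √2 * (r + 1)) ^ r / (r.factorial : ℝ) *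
            √(∑ i ∈ range (r + 1), ‖P.eval (c * ζ ^ (k0 + i * L))‖ ^ 2)) ^ 2 :=
            pow_le_pow_left₀ (norm_nonneg _) h2 2
        _ = _ := by
            rw [mul_pow, Real.sq_sqrt (Finset.sum_nonneg fun i _ => by positivity), hΛ]
    have h2 := Finset.sum_le_sum h1
    rw [Finset.sum_const, Finset.card_range, nsmul_eq_mul, ← Finset.mul_sum,
      top_sum_mul (fun k => ‖P.eval (c * ζ ^ k)‖ ^ 2), ← hA] at h2
    exact h2
  -- the two parts
  have hpart : (1 + √2) ^ s * A ≤ 3 * (r + 1) * Λ * A := by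
    have h1 : M = (r + 1) * L + 3 * ((r + 1) * L) := by omega
    rw [h1, Finset.sum_range_add] at hid
    have h2 : (1 + √2) ^ s * A ≤ ∑ k ∈ range ((r + 1) * L),
        (1 + 2 * Real.cos (θ k)) ^ s * ‖P.eval (c * ζ ^ k)‖ ^ 2 := by
      rw [hA, Finset.mul_sum]
      refine Finset.sum_le_sum fun k hk => ?_
      have hk' : (k : ℝ) ≤ (r + 1) * L := by
        have := (Finset.mem_range.1 hk).le
        exact_mod_cast this
      have hk0 : (0 : ℝ) ≤ k := by positivity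
      have hcos : √2 / 2 ≤ Real.cos (θ k) := by
        rw [← Real.cos_abs, ← Real.cos_pi_div_four]
        apply Real.cos_le_cos_of_nonneg_of_le_pi (abs_nonneg _) (by linarith [Real.pi_pos])
        have h3 : |θ k| = 2 * Real.pi * |(k : ℝ) - (r + 1) * L / 2| / M := by
          simp only [hθ]
          rw [abs_div, abs_mul, abs_of_nonneg (show 0 ≤ 2 * Real.pi by positivity), abs_of_pos hMr]
        have h4 : |(k : ℝ) - (r + 1) * L / 2| ≤ (r + 1) * L / 2 := by
          rw [abs_le]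
          constructor <;> linarith
        rw [h3]
        calc 2 * Real.pi * |(k : ℝ) - (r + 1) * L / 2| / M
            ≤ 2 * Real.pi * ((r + 1) * L / 2) / M := by gcongr
          _ = Real.pi / 4 := by
              rw [hMe]
              field_simp
      apply mul_le_mul_of_nonneg_right _ (by positivity)
      exact pow_le_pow_left₀ (by positivity) (by linarith) s
    have h3 : -(3 * (r + 1) * Λ * A) ≤ ∑ x ∈ range (3 * ((r + 1) * L)),
        (1 + 2 * Real.cos (θ ((r + 1) * L + x))) ^ s *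
          ‖P.eval (c * ζ ^ ((r + 1) * L + x))‖ ^ 2 := by
      have h4 : ∀ x ∈ range (3 * ((r + 1) * L)), -(Λ * A / L) ≤
          (1 + 2 * Real.cos (θ ((r + 1) * L + x))) ^ s *
            ‖P.eval (c * ζ ^ ((r + 1) * L + x))‖ ^ 2 := by
        intro x _
        have h5 := top_pow (y := 1 + 2 * Real.cos (θ ((r + 1) * L + x)))
          (by linarith [Real.neg_one_le_cos (θ ((r + 1) * L + x))]) s
        have h6 := hall _ (hwn ((r + 1) * L + x))
        have h7 : ‖P.eval (c * ζ ^ ((r + 1) * L + x))‖ ^ 2 ≤ Λ * A / L := by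
          rw [le_div_iff₀ hLr]
          linarith
        have h8 : 0 ≤ ‖P.eval (c * ζ ^ ((r + 1) * L + x))‖ ^ 2 := by positivity
        have h9 := mul_le_mul_of_nonneg_right h5 h8
        linarith
      have h5 := Finset.sum_le_sum h4
      rw [Finset.sum_const, Finset.card_range, nsmul_eq_mul] at h5
      refine le_trans (le_of_eq ?_) h5
      push_cast
      field_simp
    linarith
  have hnum := top_num r s h5
  rw [← hΛ] at hnum
  have hA1 : A = 0 := by
    by_contra hne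
    have hApos : 0 < A := lt_of_le_of_ne hA0 (Ne.symm hne)
    have h1 := mul_lt_mul_of_pos_right hnum hApos
    linarith
  have hev : ∀ k, P.eval (c * ζ ^ k) = 0 := by
    intro k
    have h1 := hall _ (hwn k)
    rw [hA1, mul_zero] at h1
    have h2 : ‖P.eval (c * ζ ^ k)‖ ^ 2 ≤ 0 := by
      by_contra hcon
      push Not at hcon
      have := mul_pos hLr hcon
      linarith
    have h3 : ‖P.eval (c * ζ ^ k)‖ = 0 := by
      have h4 : 0 ≤ ‖P.eval (c * ζ ^ k)‖ := norm_nonneg _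
      nlinarith
    exact norm_eq_zero.1 h3
  apply hP0
  ext m
  rw [coeff_zero]
  by_cases hm : m < M
  · have h1 := top_orth hM0 hζ hc P (by omega) m hm
    rw [Finset.sum_eq_zero (fun k _ => by rw [hev k, zero_mul])] at h1
    have h2 : (M : ℂ) ≠ 0 := by exact_mod_cast hM0.ne'
    exact (mul_eq_zero.1 h1.symm).resolve_left h2
  · exact coeff_eq_zero_of_natDegree_lt (by omega)

end Pool.Agent.Lib.MP_c1a8e2_al
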