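import Pool.Agent.Lib.MP_c1a8e2_al.h31.Near

/-!
# Two variables: `m + 1 = p ± 2`, and the final families
-/

set_option autoImplicit false

open Polynomial Finset

namespace Pool.Agent.Lib.MP_c1a8e2_al

section

variable {L : Type} [Field L]

theorem pow_congr3 (v : L) (hv : v ^ 3 = 1) (a b : ℕ) (h : a % 3 = b % 3) : v ^ a = v ^ b := by
  rw [← Nat.mod_add_div a 3, ← Nat.mod_add_div b 3, pow_add, pow_add, pow_mul, pow_mul, hv,
    one_pow, one_pow, h]

theorem br_ne (v : L) (hv : v ^ 2 + v + 1 = 0) (h3 : (3 : L) ≠ 0) (c : L) (e : ℕ) (he : e < 3)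
    (h0 : e = 0 → c ≠ 0) (h1 : e = 1 → c ≠ 1) (h2 : e = 2 → c ≠ -1) :
    1 - v ^ (2 * e) + c * v ^ e * (v - v ^ 2) ≠ 0 := by
  have hv3 := cube_root L v hv
  have hv0 : v ≠ 0 := by
    rintro rfl
    simp at hv
  have hv1 : v ≠ 1 := by
    rintro rfl
    apply h3
    linear_combination hv
  have n1 : (1 - v : L) ≠ 0 := sub_ne_zero.mpr hv1.symm
  have n2 : (1 - v ^ 2 : L) ≠ 0 := by
    intro h
    apply hv1
    have : v ^ 2 = 1 := by linear_combination -h
    calc v = v * v ^ 2 := by rw [this, mul_one]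
      _ = v ^ 3 := by ring
      _ = 1 := hv3
  intro h
  interval_cases e
  · have h4 : c * (v * (1 - v)) = 0 := by linear_combination h
    rcases mul_eq_zero.mp h4 with h5 | h5
    · exact h0 rfl h5
    · exact (mul_ne_zero hv0 n1) h5
  · have h4 : (1 - v ^ 2) * (1 - c) = 0 := by
      linear_combination h + c * hv3
    rcases mul_eq_zero.mp h4 with h5 | h5
    · exact n2 h5
    · exact h1 rfl (by linear_combination -h5)
  · have h4 : (1 - v) * (1 + c) = 0 := by
      linear_combination h + (v - c + c * v) * hv3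
    rcases mul_eq_zero.mp h4 with h5 | h5
    · exact n1 h5
    · exact h2 rfl (by linear_combination h5)

theorem coeff_X_sub_C_pow' (v : L) (n k : ℕ) :
    ((X - C v) ^ n : L[X]).coeff k = (-v) ^ (n - k) * (n.choose k : L) := by
  rw [sub_eq_add_neg, ← C_neg, coeff_X_add_C_pow]

/-- The coefficients of `(X - v) ^ (s' + 1) (a X + b)`. -/
theorem coeff_lin (v a b : L) (s' : ℕ) (hs' : Even s') :
    ((X - C v) ^ (s' + 1) * (C a * X + C b)).coeff (s' + 2) = a ∧
    ((X - C v) ^ (s' + 1) * (C a * X + C b)).coeff (s' + 1) = b - v * (s' + 1) * a ∧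
    ((X - C v) ^ (s' + 1) * (C a * X + C b)).coeff 0 = -v ^ (s' + 1) * b ∧
    ((X - C v) ^ (s' + 1) * (C a * X + C b)).coeff 1 =
      -v ^ (s' + 1) * a + (s' + 1) * v ^ s' * b := by
  have hrw : (X - C v) ^ (s' + 1) * (C a * X + C b) =
      C a * ((X - C v) ^ (s' + 1) * X) + C b * (X - C v) ^ (s' + 1) := by ring
  have hodd : Odd (s' + 1) := hs'.add_one
  rw [hrw]
  refine ⟨?_, ?_, ?_, ?_⟩
  · rw [coeff_add, coeff_C_mul, coeff_C_mul, coeff_mul_X, coeff_X_sub_C_pow', coeff_X_sub_C_pow']
    simp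
  · rw [coeff_add, coeff_C_mul, coeff_C_mul, coeff_mul_X, coeff_X_sub_C_pow', coeff_X_sub_C_pow']
    simp
    ring
  · rw [coeff_add, coeff_C_mul, coeff_C_mul, mul_coeff_zero, coeff_X_zero, coeff_X_sub_C_pow',
      Nat.sub_zero, Odd.neg_pow hodd]
    simp
    ring
  · rw [coeff_add, coeff_C_mul, coeff_C_mul, show (1 : ℕ) = 0 + 1 from rfl, coeff_mul_X,
      coeff_X_sub_C_pow', coeff_X_sub_C_pow', Nat.sub_zero, Odd.neg_pow hodd]
    have h1 : s' + 1 - (0 + 1) = s' := by omega
    rw [h1, Even.neg_pow hs']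
    simp
    ring

end

section

variable (L : Type) [Field L] (p : ℕ) [hp : Fact p.Prime] [CharP L p]

omit hp in
theorem cast_ne (n : ℕ) (h : ¬ p ∣ n) : (n : L) ≠ 0 := by
  rwa [ne_eq, CharP.cast_eq_zero_iff L p]

/-- `N + 2 = p` -/
theorem pal_minus_two (hp2 : p ≠ 2) (hp3 : p ≠ 3) (w : L) (hw : w ^ 2 + w + 1 = 0)
    (N s : ℕ) (hN : N + 2 = p) (hs : Odd s) (hsN : s ≤ N) : PalWin L N s := by
  intro G hdvd hhigh hmid hpal
  obtain ⟨A, B, hA, hB, hG⟩ := split_window G s N hhigh hmid
  obtain ⟨s', rfl⟩ : ∃ s', s = s' + 1 := ⟨s - 1, by have := hs.pos; omega⟩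
  have hev : Even s' := by
    rcases Nat.even_or_odd s' with h | h
    · exact h
    · exact absurd hs (Nat.not_odd_iff_even.mpr h.add_one)
  have h3 := three_ne L p hp3
  have key : ∀ v : L, v ^ 2 + v + 1 = 0 → X ^ 2 * A + C (v ^ (p ^ 1)) * B = 0 := by
    intro v hv
    have hv3 := cube_root L v hv
    have h1 : (X - C v) ^ (s' + 1) ∣ X ^ 2 * A + C (v ^ (p ^ 1)) * B := by
      apply dvd_frob L p 1 v (X ^ 2 * A) B (s' + 1) (by rw [pow_one]; omega)
      have h2 : X ^ 2 * A + X ^ (p ^ 1) * B = X ^ 2 * G := by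
        rw [hG, pow_one, ← hN]
        ring
      rw [h2]
      exact Dvd.dvd.mul_left (root_pow_dvd L v hv _ G hdvd) _
    obtain ⟨K, hK, hE⟩ := quot_deg v (s' + 1) 1 _ (by
      intro n hn
      obtain ⟨n', rfl⟩ : ∃ n', n = n' + 2 := ⟨n - 2, by omega⟩
      rw [coeff_add, coeff_C_mul, hB (n' + 2), if_neg (by omega), mul_zero, add_zero,
        coeff_X_pow_mul, hA n', if_neg (by omega)]) h1
    obtain ⟨a, b, rfl⟩ := exists_eq_X_add_C_of_natDegree_le_one hK
    obtain ⟨c1, c2, c3, c4⟩ := coeff_lin v a b s' hev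
    rw [← hE] at c1 c2 c3 c4
    rw [coeff_add, coeff_C_mul] at c1 c2 c3 c4
    have b2 : B.coeff (s' + 2) = 0 := by rw [hB, if_neg (by omega)]
    have b1 : B.coeff (s' + 1) = 0 := by rw [hB, if_neg (by omega)]
    have b0 : B.coeff 0 = G.coeff (N + 0) := by rw [hB, if_pos (by omega)]
    have a0 : (X ^ 2 * A).coeff (s' + 2) = G.coeff s' := by
      rw [coeff_X_pow_mul, hA, if_pos (by omega)]
    have z0 : (X ^ 2 * A).coeff 0 = 0 := by
      rw [coeff_X_pow_mul', if_neg (by omega)]
    have z1 : (X ^ 2 * A).coeff 1 = 0 := by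
      rw [coeff_X_pow_mul', if_neg (by omega)]
    have hab : (X ^ 2 * A).coeff (s' + 1) = B.coeff 1 := by
      rw [coeff_X_pow_mul', hB]
      by_cases h0 : s' = 0
      · rw [if_neg (by omega), if_neg (by omega)]
      · rw [if_pos (by omega), if_pos (by omega), hA, if_pos (by omega)]
        exact hpal _ _ (by omega)
    have hgg : G.coeff s' = G.coeff (N + 0) := hpal s' (N + 0) (by omega)
    rw [a0, b2] at c1
    rw [hab, b1] at c2
    rw [z0, b0, ← hgg] at c3
    rw [z1] at c4
    set g := G.coeff s'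
    set β := B.coeff 1
    set Q := v ^ (p ^ 1) with hQ
    set S := v ^ (s' + 1) with hS
    have hs'v : v ^ s' = S * v ^ 2 := by
      rw [hS, ← pow_add]
      exact pow_congr3 v hv3 _ _ (by omega)
    rw [hs'v] at c4
    have hfin : b * (Q ^ 2 - S ^ 2 + (s' + 1) * Q * S * (v - v ^ 2)) = 0 := by
      have t1 : Q * a = -S * b := by linear_combination c3 - Q * c1
      have t2 : β = b - v * (s' + 1) * a := by linear_combination c2
      have t3 : Q * β = -S * a + (s' + 1) * (S * v ^ 2) * b := by linear_combination c4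
      linear_combination Q * t3 - Q ^ 2 * t2 + (v * (s' + 1) * Q - S) * t1
    obtain ⟨e, he, hSe⟩ : ∃ e < 3, S = Q * v ^ e ∧ e = (s' + 1 + 2 * p) % 3 := by
      refine ⟨(s' + 1 + 2 * p) % 3, Nat.mod_lt _ (by norm_num), ?_, rfl⟩
      rw [hS, hQ, pow_one, ← pow_add]
      exact pow_congr3 v hv3 _ _ (by omega)
    obtain ⟨hSe, hee⟩ := hSe
    have hp5 : 5 ≤ p := by
      have h2 := hp.out.two_le
      have h4 : p ≠ 4 := by
        intro h4
        have := hp.out
        rw [h4] at this
        exact absurd this (by norm_num)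
      omega
    have hp3' : p % 3 ≠ 0 := by
      intro h
      have : 3 ∣ p := Nat.dvd_of_mod_eq_zero h
      exact hp3 ((Nat.prime_dvd_prime_iff_eq Nat.prime_three hp.out).mp this).symm
    have hpodd : p % 2 = 1 := by
      rcases hp.out.eq_two_or_odd with h | h
      · exact absurd h hp2
      · exact h
    have hne := br_ne v hv h3 ((s' + 1 : ℕ) : L) e he
      (fun _ => cast_ne L p (s' + 1) (fun h => by
        have := Nat.le_of_dvd (by omega) h
        omega))
      (fun he1 h => by
        have h4 : (s' : L) = 0 := by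
          push_cast at h
          linear_combination h
        rw [CharP.cast_eq_zero_iff L p] at h4
        have h5 : s' = 0 := Nat.eq_zero_of_dvd_of_lt h4 (by omega)
        omega)
      (fun he2 h => by
        have h4 : ((s' + 2 : ℕ) : L) = 0 := by
          push_cast at h ⊢
          linear_combination h
        rw [CharP.cast_eq_zero_iff L p] at h4
        have := Nat.le_of_dvd (by omega) h4
        omega)
    have hb0 : b = 0 := by
      have hv0 : v ≠ 0 := by
        rintro rfl
        simp at hv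
      have hQ0 : Q ≠ 0 := pow_ne_zero _ hv0
      have h5 : b * (Q ^ 2 *
          (1 - v ^ (2 * e) + ((s' + 1 : ℕ) : L) * v ^ e * (v - v ^ 2))) = 0 := by
        rw [← hfin, hSe]
        push_cast
        ring
      exact (mul_eq_zero.mp h5).resolve_right (mul_ne_zero (pow_ne_zero 2 hQ0) hne)
    have ha0 : a = 0 := by
      have hv0 : v ≠ 0 := by
        rintro rfl
        simp at hv
      have hQ0 : Q ≠ 0 := pow_ne_zero _ hv0
      have t1 : Q * a = 0 := by
        rw [hb0] at c3
        linear_combination c3 - Q * c1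
      exact (mul_eq_zero.mp t1).resolve_left hQ0
    rw [hE, ha0, hb0, C_0, zero_mul, zero_add, mul_zero]
  obtain ⟨h1, h2⟩ := both_zero _ _ (ne_frob L p 1 hp3 w hw) (X ^ 2 * A) B (key w hw)
    (key (w ^ 2) (root_sq L w hw))
  have h4 : A = 0 := (mul_eq_zero.mp h1).resolve_left (pow_ne_zero 2 X_ne_zero)
  rw [hG, h4, h2, mul_zero, add_zero]

/-- `N = p + 2` -/
theorem pal_plus_two (hp2 : p ≠ 2) (hp3 : p ≠ 3) (w : L) (hw : w ^ 2 + w + 1 = 0)
    (N s : ℕ) (hN : N = p + 2) (hs : Odd s) (hsN : s ≤ p) : PalWin L N s := by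
  intro G hdvd hhigh hmid hpal
  obtain ⟨A, B, hA, hB, hG⟩ := split_window G s N hhigh hmid
  obtain ⟨s', rfl⟩ : ∃ s', s = s' + 1 := ⟨s - 1, by have := hs.pos; omega⟩
  have hev : Even s' := by
    rcases Nat.even_or_odd s' with h | h
    · exact h
    · exact absurd hs (Nat.not_odd_iff_even.mpr h.add_one)
  have h3 := three_ne L p hp3
  have key : ∀ v : L, v ^ 2 + v + 1 = 0 → A + C (v ^ (p ^ 1)) * (X ^ 2 * B) = 0 := by
    intro v hv
    have hv3 := cube_root L v hv
    have h1 : (X - C v) ^ (s' + 1) ∣ A + C (v ^ (p ^ 1)) * (X ^ 2 * B) := by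
      apply dvd_frob L p 1 v A (X ^ 2 * B) (s' + 1) (by rw [pow_one]; omega)
      have h2 : A + X ^ (p ^ 1) * (X ^ 2 * B) = G := by
        rw [hG, pow_one, hN]
        ring
      rw [h2]
      exact root_pow_dvd L v hv _ G hdvd
    obtain ⟨K, hK, hE⟩ := quot_deg v (s' + 1) 1 _ (by
      intro n hn
      obtain ⟨n', rfl⟩ : ∃ n', n = n' + 2 := ⟨n - 2, by omega⟩
      rw [coeff_add, coeff_C_mul, coeff_X_pow_mul, hB n', hA (n' + 2), if_neg (by omega),
        if_neg (by omega), mul_zero, add_zero]) h1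
    obtain ⟨a, b, rfl⟩ := exists_eq_X_add_C_of_natDegree_le_one hK
    obtain ⟨c1, c2, c3, c4⟩ := coeff_lin v a b s' hev
    rw [← hE] at c1 c2 c3 c4
    rw [coeff_add, coeff_C_mul] at c1 c2 c3 c4
    have a2 : A.coeff (s' + 2) = 0 := by rw [hA, if_neg (by omega)]
    have a1 : A.coeff (s' + 1) = 0 := by rw [hA, if_neg (by omega)]
    have a0 : A.coeff 0 = G.coeff 0 := by rw [hA, if_pos (by omega)]
    have b0 : (X ^ 2 * B).coeff (s' + 2) = G.coeff (N + s') := by
      rw [coeff_X_pow_mul, hB, if_pos (by omega)]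
    have z0 : (X ^ 2 * B).coeff 0 = 0 := by
      rw [coeff_X_pow_mul', if_neg (by omega)]
    have z1 : (X ^ 2 * B).coeff 1 = 0 := by
      rw [coeff_X_pow_mul', if_neg (by omega)]
    have hab : (X ^ 2 * B).coeff (s' + 1) = A.coeff 1 := by
      rw [coeff_X_pow_mul', hA]
      by_cases h0 : s' = 0
      · rw [if_neg (by omega), if_neg (by omega)]
      · rw [if_pos (by omega), if_pos (by omega), hB, if_pos (by omega)]
        exact hpal _ _ (by omega)
    have hgg : G.coeff 0 = G.coeff (N + s') := hpal 0 (N + s') (by omega)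
    rw [a2, b0, ← hgg] at c1
    rw [hab, a1] at c2
    rw [z0, a0] at c3
    rw [z1] at c4
    set g := G.coeff 0
    set β := A.coeff 1
    set Q := v ^ (p ^ 1) with hQ
    set S := v ^ (s' + 1) with hS
    have hs'v : v ^ s' = S * v ^ 2 := by
      rw [hS, ← pow_add]
      exact pow_congr3 v hv3 _ _ (by omega)
    rw [hs'v] at c4
    have hfin : b * (1 - (Q * S) ^ 2 + (s' + 1) * (Q * S) * (v - v ^ 2)) = 0 := by
      have t1 : Q * g = a := by linear_combination c1
      have t2 : Q * β = b - v * (s' + 1) * a := by linear_combination c2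
      have t3 : g = -S * b := by linear_combination c3
      have t4 : β = -S * a + (s' + 1) * (S * v ^ 2) * b := by linear_combination c4
      have t5 : a = -(Q * S) * b := by rw [← t1, t3]; ring
      rw [t5] at t2 t4
      rw [t4] at t2
      linear_combination -t2
    obtain ⟨e, he, hSe, hee⟩ : ∃ e < 3, Q * S = v ^ e ∧ e = (s' + 1 + p) % 3 := by
      refine ⟨(s' + 1 + p) % 3, Nat.mod_lt _ (by norm_num), ?_, rfl⟩
      rw [hS, hQ, pow_one, ← pow_add]
      exact pow_congr3 v hv3 _ _ (by omega)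
    have hp5 : 5 ≤ p := by
      have h2 := hp.out.two_le
      have h4 : p ≠ 4 := by
        intro h4
        have := hp.out
        rw [h4] at this
        exact absurd this (by norm_num)
      omega
    have hp3' : p % 3 ≠ 0 := by
      intro h
      have : 3 ∣ p := Nat.dvd_of_mod_eq_zero h
      exact hp3 ((Nat.prime_dvd_prime_iff_eq Nat.prime_three hp.out).mp this).symm
    have hpodd : p % 2 = 1 := by
      rcases hp.out.eq_two_or_odd with h | h
      · exact absurd h hp2
      · exact h
    have hs2 : s' % 2 = 0 := Nat.even_iff.mp hev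
    have hne := br_ne v hv h3 ((s' + 1 : ℕ) : L) e he
      (fun he0 => cast_ne L p (s' + 1) (fun h => by
        have := Nat.le_of_dvd (by omega) h
        have h5 : s' + 1 = p := by omega
        omega))
      (fun he1 h => by
        have h4 : (s' : L) = 0 := by
          push_cast at h
          linear_combination h
        rw [CharP.cast_eq_zero_iff L p] at h4
        have h5 : s' = 0 := Nat.eq_zero_of_dvd_of_lt h4 (by omega)
        omega)
      (fun he2 h => by
        have h4 : ((s' + 2 : ℕ) : L) = 0 := by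
          push_cast at h ⊢
          linear_combination h
        rw [CharP.cast_eq_zero_iff L p] at h4
        obtain ⟨c, hc⟩ := h4
        have hc1 : c = 1 := by
          have : c < 2 := by
            by_contra h6
            have : p * 2 ≤ p * c := Nat.mul_le_mul_left p (by omega)
            omega
          have : c ≠ 0 := by
            rintro rfl
            omega
          omega
        rw [hc1, mul_one] at hc
        omega)
    have hb0 : b = 0 := by
      have h5 : b * (1 - v ^ (2 * e) + ((s' + 1 : ℕ) : L) * v ^ e * (v - v ^ 2)) = 0 := by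
        rw [← hfin, hSe]
        push_cast
        ring
      exact (mul_eq_zero.mp h5).resolve_right hne
    have ha0 : a = 0 := by
      rw [hb0] at c3
      have hg : g = 0 := by linear_combination c3
      rw [hg] at c1
      linear_combination -c1
    rw [hE, ha0, hb0, C_0, zero_mul, zero_add, mul_zero]
  obtain ⟨h1, h2⟩ := both_zero _ _ (ne_frob L p 1 hp3 w hw) A (X ^ 2 * B) (key w hw)
    (key (w ^ 2) (root_sq L w hw))
  have h4 : B = 0 := (mul_eq_zero.mp h2).resolve_left (pow_ne_zero 2 X_ne_zero)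
  rw [hG, h1, h4, mul_zero, add_zero]

end

/-- multiplicity one -/
theorem palWin_one (w : ℂ) (hw : w ^ 2 + w + 1 = 0) (N : ℕ) (hN : 1 ≤ N) : PalWin ℂ N 1 := by
  intro G hdvd hhigh hmid hpal
  obtain ⟨A, B, hA, hB, hG⟩ := split_window G 1 N hhigh hmid
  have h0 : G.coeff 0 = G.coeff (N + 0) := hpal 0 (N + 0) (by omega)
  have hA' : A = C (G.coeff 0) := by
    ext n
    rw [hA, coeff_C]
    by_cases hn : n = 0
    · subst hn
      rw [if_pos (by omega), if_pos rfl]
    · rw [if_neg (by omega), if_neg hn]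
  have hB' : B = C (G.coeff 0) := by
    ext n
    rw [hB, coeff_C]
    by_cases hn : n = 0
    · subst hn
      rw [if_pos (by omega), if_pos rfl, h0]
    · rw [if_neg (by omega), if_neg hn]
  have h1 : G.eval w = 0 := by
    rw [pow_one] at hdvd
    obtain ⟨K, hK⟩ := hdvd
    rw [hK, eval_mul]
    simp [hw]
  have h2 : G.coeff 0 * (w ^ 0 + w ^ N) = 0 := by
    have h3 : G.eval w = G.coeff 0 + w ^ N * G.coeff 0 := by
      conv_lhs => rw [hG, hA', hB']
      simp
      ring
    rw [h1] at h3
    linear_combination -h3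
  have h3 : G.coeff 0 = 0 := (mul_eq_zero.mp h2).resolve_right
    (add_root_ne w (cube_root ℂ w hw) two_ne_zero _ _)
  rw [hG, hA', hB', h3]
  simp

/-- It suffices to treat odd multiplicities at least three. -/
theorem nonsing_of_odd3 (m : ℕ)
    (h : ∀ s, Odd s → 3 ≤ s → s ≤ m → ∃ (L : Type) (_ : Field L) (w : L), w ^ 2 + w + 1 = 0 ∧
      PalWin L (m + 1) s) : Nonsing 2 m := by
  refine nonsing_of_odd m fun s hs hsm => ?_
  by_cases h3 : 3 ≤ s
  · exact h s hs h3 hsm
  · have h1 : s = 1 := by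
      obtain ⟨j, hj⟩ := hs
      omega
    subst h1
    obtain ⟨w, hw⟩ := exists_root_f ℂ
    exact ⟨ℂ, inferInstance, w, hw, palWin_one w hw (m + 1) (by omega)⟩

/-- `m + 1` next to a power of a prime `p ≥ 5`, or at distance at most two from `p` itself. -/
theorem nonsing_near (m p a : ℕ) (hp : p.Prime) (hp5 : 5 ≤ p)
    (h : m + 1 = p ^ a ∨ m + 2 = p ^ a ∨ m = p ^ a ∨ m + 3 = p ∨ m = p + 1) :
    Nonsing 2 m := by
  have : Fact p.Prime := ⟨hp⟩
  refine nonsing_of_odd m fun s hs hsm => ?_
  obtain ⟨w, hw⟩ := exists_root_f (AlgebraicClosure (ZMod p))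
  have hp2 : p ≠ 2 := by omega
  have hp3 : p ≠ 3 := by omega
  refine ⟨AlgebraicClosure (ZMod p), inferInstance, w, hw, ?_⟩
  rcases h with h | h | h | h | h
  · have h1 : m + 1 = 1 * p ^ a := by rw [one_mul]; exact h
    rw [h1]
    have hwin : ∀ i, i ≤ 1 → Win (AlgebraicClosure (ZMod p)) 1 i := by
      intro i hi
      refine win_of_det _ 1 i ?_
      interval_cases i
      · have : (toep 0 1).det = 1 := by
          rw [Matrix.det_fin_one]
          simp [toep]
        rw [this]
        simp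
      · have : (toep 1 1).det = 1 := Matrix.det_fin_zero
        rw [this]
        simp
    have hsq : s < p ^ a := by omega
    refine (win_mul _ p a hp3 w hw 1 s (by omega) (hwin _ ?_) (fun _ => hwin _ ?_)).pal
    · rw [Nat.div_eq_of_lt hsq]
      omega
    · rw [Nat.div_eq_of_lt hsq]
  · exact pal_minus_one _ p a hp2 hp3 w hw (m + 1) s (by omega) hs (by omega)
  · exact pal_plus_one _ p a hp2 hp3 w hw (m + 1) s (by omega) hs (by omega)
  · exact pal_minus_two _ p hp2 hp3 w hw (m + 1) s (by omega) hs (by omega)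
  · have h1 : s ≤ p := by
      have h2 : p % 2 = 1 := by
        rcases hp.eq_two_or_odd with h | h
        · omega
        · exact h
      have h3 : s % 2 = 1 := Nat.odd_iff.mp hs
      omega
    exact pal_plus_two _ p hp2 hp3 w hw (m + 1) s (by omega) hs h1

end Pool.Agent.Lib.MP_c1a8e2_al
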