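import Pool.Agent.Lib.MP_c1a8e2_al.h31.Degree

/-!
# Large multiplicities: positivity

If `s` is large compared with `r = N - 1 - s`, then the form `∑ (1 + 2 cos θ) ^ s |P| ^ 2` is positive on the
polynomials of degree at most `r` (Lagrange interpolation on an arc), hence `Win ℂ N s`.
-/

set_option autoImplicit false

open Finset Polynomial

namespace Pool.Agent.Lib.MP_c1a8e2_al


private theorem top_prod_low (i : ℕ) : ∏ j ∈ range i, |(i : ℝ) - j| = (i.factorial : ℝ) := by
  have h1 : ∏ j ∈ range i, |(i : ℝ) - j| = ∏ j ∈ range i, (((i - 1 - j : ℕ) : ℝ) + 1) := by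
    refine Finset.prod_congr rfl fun j hj => ?_
    have hj' := Finset.mem_range.1 hj
    have h2 : ((i - 1 - j : ℕ) : ℝ) = (i : ℝ) - 1 - j := by
      rw [Nat.sub_sub, Nat.cast_sub (by omega)]
      push_cast
      ring
    rw [h2, abs_of_nonneg]
    · ring
    · have : (j : ℝ) < i := by exact_mod_cast hj'
      linarith
  rw [h1, Finset.prod_range_reflect (fun j => ((j : ℕ) : ℝ) + 1) i]
  rw [← Finset.prod_range_add_one_eq_factorial]
  push_cast
  rfl

private theorem top_prod (i k : ℕ) :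
    ∏ j ∈ (range (i + k + 1)).erase i, |(i : ℝ) - j| = (i.factorial : ℝ) * (k.factorial : ℝ) := by
  induction k with
  | zero =>
    have h : (range (i + 0 + 1)).erase i = range i := by
      ext j
      simp only [Finset.mem_erase, Finset.mem_range]
      omega
    rw [h, top_prod_low]
    simp
  | succ k ih =>
    have h : (range (i + (k + 1) + 1)).erase i = insert (i + k + 1) ((range (i + k + 1)).erase i) := by
      ext j
      simp only [Finset.mem_erase, Finset.mem_range, Finset.mem_insert]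
      omega
    rw [h, Finset.prod_insert (by simp), ih]
    have h2 : |(i : ℝ) - ((i + k + 1 : ℕ) : ℝ)| = (k : ℝ) + 1 := by
      push_cast
      rw [show (i : ℝ) - ((i : ℝ) + k + 1) = -((k : ℝ) + 1) by ring, abs_neg, abs_of_nonneg (by positivity)]
    rw [h2, Nat.factorial_succ]
    push_cast
    ring

private theorem top_sum (r : ℕ) :
    ∑ i ∈ range (r + 1), 1 / ((i.factorial : ℝ) * ((r - i).factorial : ℝ)) = 2 ^ r / (r.factorial : ℝ) := by
  have h1 : ∀ i ∈ range (r + 1), 1 / ((i.factorial : ℝ) * ((r - i).factorial : ℝ)) =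
      (r.choose i : ℝ) / (r.factorial : ℝ) := by
    intro i hi
    have hi' : i ≤ r := by
      have := Finset.mem_range.1 hi
      omega
    rw [Nat.cast_choose ℝ hi']
    have h2 : (r.factorial : ℝ) ≠ 0 := by exact_mod_cast r.factorial_ne_zero
    field_simp
  rw [Finset.sum_congr rfl h1, ← Finset.sum_div]
  congr 1
  exact_mod_cast Nat.sum_range_choose r

theorem top_interp (r : ℕ) (P : ℂ[X]) (hP : P.natDegree ≤ r) (v : ℕ → ℂ) (hv : ∀ i ≤ r, ‖v i‖ = 1)
    (hd : ∀ i ≤ r, ∀ j ≤ r, √2 * |(i : ℝ) - j| / (r + 1) ≤ ‖v i - v j‖) (R : ℝ)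
    (hR : ∀ i ≤ r, ‖P.eval (v i)‖ ≤ R) (w : ℂ) (hw : ‖w‖ = 1) :
    ‖P.eval w‖ ≤ (2 * √2 * (r + 1)) ^ r / (r.factorial : ℝ) * R := by
  have hR0 : 0 ≤ R := (norm_nonneg _).trans (hR 0 (Nat.zero_le _))
  have hs2 : (0 : ℝ) < √2 := by positivity
  have hinj : Set.InjOn v (range (r + 1) : Finset ℕ) := by
    intro i hi j hj hij
    have hi' : i ≤ r := by
      have := Finset.mem_range.1 (Finset.mem_coe.1 hi)
      omega
    have hj' : j ≤ r := by
      have := Finset.mem_range.1 (Finset.mem_coe.1 hj)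
      omega
    by_contra hne
    have h1 := hd i hi' j hj'
    rw [hij, sub_self, norm_zero] at h1
    have h2 : 0 < |(i : ℝ) - j| := by
      rw [abs_pos, sub_ne_zero]
      exact_mod_cast hne
    have h3 : 0 < √2 * |(i : ℝ) - j| / (r + 1) := by positivity
    linarith
  have hdeg : P.degree < ((range (r + 1)).card : ℕ) := by
    rw [Finset.card_range]
    refine lt_of_le_of_lt Polynomial.degree_le_natDegree ?_
    exact_mod_cast Nat.lt_succ_of_le hP
  have hint := Lagrange.eq_interpolate hinj hdeg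
  have hev : P.eval w = ∑ i ∈ range (r + 1), P.eval (v i) *
      ∏ j ∈ (range (r + 1)).erase i, ((v i - v j)⁻¹ * (w - v j)) := by
    conv_lhs => rw [hint]
    rw [Lagrange.interpolate_apply, Polynomial.eval_finsetSum]
    refine Finset.sum_congr rfl fun i _ => ?_
    rw [Polynomial.eval_mul, Polynomial.eval_C]
    congr 1
    unfold Lagrange.basis Lagrange.basisDivisor
    rw [Polynomial.eval_prod]
    refine Finset.prod_congr rfl fun j _ => ?_
    simp
  have hterm : ∀ i ∈ range (r + 1), ‖P.eval (v i) *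
      ∏ j ∈ (range (r + 1)).erase i, ((v i - v j)⁻¹ * (w - v j))‖ ≤
      R * ((√2 * (r + 1)) ^ r * (1 / ((i.factorial : ℝ) * ((r - i).factorial : ℝ)))) := by
    intro i hi
    have hi' : i ≤ r := by
      have := Finset.mem_range.1 hi
      omega
    rw [norm_mul, norm_prod]
    refine mul_le_mul (hR i hi') ?_ (Finset.prod_nonneg fun j _ => norm_nonneg _) hR0
    have hfac : ∏ j ∈ (range (r + 1)).erase i, |(i : ℝ) - j| =
        (i.factorial : ℝ) * ((r - i).factorial : ℝ) := by
      have := top_prod i (r - i)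
      rwa [show i + (r - i) + 1 = r + 1 by omega] at this
    have hcard : ((range (r + 1)).erase i).card = r := by
      rw [Finset.card_erase_of_mem hi, Finset.card_range]
      rfl
    calc ∏ j ∈ (range (r + 1)).erase i, ‖(v i - v j)⁻¹ * (w - v j)‖
        ≤ ∏ j ∈ (range (r + 1)).erase i, (√2 * (r + 1) * |(i : ℝ) - j|⁻¹) := by
          refine Finset.prod_le_prod (fun j _ => norm_nonneg _) fun j hj => ?_
          have hj1 := Finset.mem_erase.1 hj
          have hj' : j ≤ r := by
            have := Finset.mem_range.1 hj1.2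
            omega
          have habs : 0 < |(i : ℝ) - j| := by
            rw [abs_pos, sub_ne_zero]
            exact_mod_cast hj1.1.symm
          have h1 := hd i hi' j hj'
          have h2 : ‖w - v j‖ ≤ 2 := by
            refine (norm_sub_le _ _).trans ?_
            rw [hw, hv j hj']
            norm_num
          have h3 : 0 < √2 * |(i : ℝ) - j| / (r + 1) := by positivity
          rw [norm_mul, norm_inv]
          calc ‖v i - v j‖⁻¹ * ‖w - v j‖ ≤ (√2 * |(i : ℝ) - j| / (r + 1))⁻¹ * 2 :=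
                mul_le_mul (inv_anti₀ h3 h1) h2 (norm_nonneg _) (by positivity)
            _ = √2 * (r + 1) * |(i : ℝ) - j|⁻¹ := by
                have h4 : √2 * √2 = 2 := Real.mul_self_sqrt (by norm_num)
                have hr : (0 : ℝ) < r + 1 := by positivity
                field_simp
                rw [sq, h4]
      _ = (√2 * (r + 1)) ^ r * (1 / ((i.factorial : ℝ) * ((r - i).factorial : ℝ))) := by
          rw [Finset.prod_mul_distrib, Finset.prod_const, hcard, Finset.prod_inv_distrib, hfac, one_div]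
  rw [hev]
  refine (norm_sum_le _ _).trans ((Finset.sum_le_sum hterm).trans ?_)
  rw [← Finset.mul_sum, ← Finset.mul_sum, top_sum]
  apply le_of_eq
  rw [show (2 * √2 * ((r : ℝ) + 1)) = 2 * (√2 * (r + 1)) by ring, mul_pow 2]
  ring



/-- the chord of an arc of at most a quarter of the circle -/
private theorem top_sin {x : ℝ} (h0 : 0 ≤ x) (h1 : x ≤ Real.pi / 4) :
    2 * √2 / Real.pi * x ≤ Real.sin x := by
  have hpi := Real.pi_pos
  have hc := strictConcaveOn_sin_Icc.concaveOn
  have h2 := hc.2 (show (0 : ℝ) ∈ Set.Icc 0 Real.pi from ⟨le_rfl, hpi.le⟩)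
    (show Real.pi / 4 ∈ Set.Icc 0 Real.pi from ⟨by positivity, by linarith⟩)
    (show 0 ≤ 1 - 4 * x / Real.pi by
      rw [sub_nonneg, div_le_one hpi]
      linarith) (show 0 ≤ 4 * x / Real.pi by positivity) (by ring)
  simp only [smul_eq_mul, mul_zero, zero_add, Real.sin_zero, Real.sin_pi_div_four] at h2
  have h3 : 4 * x / Real.pi * (Real.pi / 4) = x := by
    field_simp
  rw [h3] at h2
  calc 2 * √2 / Real.pi * x = 4 * x / Real.pi * (√2 / 2) := by ring
    _ ≤ Real.sin x := h2

theorem top_dist (r : ℕ) (θ : ℝ) (i j : ℕ) (hi : i ≤ r) (hj : j ≤ r) :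
    √2 * |(i : ℝ) - j| / (r + 1) ≤
      ‖Complex.exp (Complex.I * ((θ + i * (Real.pi / (2 * (r + 1))) : ℝ) : ℂ)) -
        Complex.exp (Complex.I * ((θ + j * (Real.pi / (2 * (r + 1))) : ℝ) : ℂ))‖ := by
  have hr : (0 : ℝ) < r + 1 := by positivity
  have hpi := Real.pi_pos
  have h1 : Complex.exp (Complex.I * ((θ + i * (Real.pi / (2 * (r + 1))) : ℝ) : ℂ)) -
        Complex.exp (Complex.I * ((θ + j * (Real.pi / (2 * (r + 1))) : ℝ) : ℂ)) =
      Complex.exp (Complex.I * ((θ + j * (Real.pi / (2 * (r + 1))) : ℝ) : ℂ)) *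
        (Complex.exp (Complex.I * ((((i : ℝ) - j) * (Real.pi / (2 * (r + 1))) : ℝ) : ℂ)) - 1) := by
    rw [mul_sub, mul_one, ← Complex.exp_add]
    congr 2
    push_cast
    ring
  rw [h1, norm_mul, Complex.norm_exp_I_mul_ofReal_sub_one]
  have h2 : ‖Complex.exp (Complex.I * ((θ + j * (Real.pi / (2 * (r + 1))) : ℝ) : ℂ))‖ = 1 := by
    rw [mul_comm, Complex.norm_exp_ofReal_mul_I]
  rw [h2, one_mul, Real.norm_eq_abs, abs_mul, abs_of_nonneg (show (0 : ℝ) ≤ 2 by norm_num)]
  -- the argument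
  set y : ℝ := |(i : ℝ) - j| * (Real.pi / (4 * (r + 1))) with hy
  have habs : |(i : ℝ) - j| ≤ r + 1 := by
    rw [abs_le]
    have h3 : (i : ℝ) ≤ r := by exact_mod_cast hi
    have h4 : (j : ℝ) ≤ r := by exact_mod_cast hj
    have h5 : (0 : ℝ) ≤ i := by positivity
    have h6 : (0 : ℝ) ≤ j := by positivity
    constructor <;> linarith
  have hy0 : 0 ≤ y := by positivity
  have hy1 : y ≤ Real.pi / 4 := by
    calc y ≤ (r + 1) * (Real.pi / (4 * (r + 1))) := by
          rw [hy]
          gcongr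
      _ = Real.pi / 4 := by
          field_simp
  have h3 : |Real.sin (((i : ℝ) - j) * (Real.pi / (2 * (r + 1))) / 2)| = Real.sin y := by
    have h4 : ((i : ℝ) - j) * (Real.pi / (2 * (r + 1))) / 2 = ((i : ℝ) - j) * (Real.pi / (4 * (r + 1))) := by
      field_simp
      ring
    rw [h4]
    rcases abs_cases ((i : ℝ) - j) with ⟨h5, _⟩ | ⟨h5, _⟩
    · rw [hy, h5, abs_of_nonneg]
      rw [← h5, ← hy]
      exact Real.sin_nonneg_of_nonneg_of_le_pi hy0 (by linarith)
    · have h6 : ((i : ℝ) - j) * (Real.pi / (4 * (r + 1))) = -y := by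
        rw [hy, h5]
        ring
      rw [h6, Real.sin_neg, abs_neg, abs_of_nonneg]
      exact Real.sin_nonneg_of_nonneg_of_le_pi hy0 (by linarith)
  rw [h3]
  have h4 := top_sin hy0 hy1
  calc √2 * |(i : ℝ) - j| / (r + 1) = 2 * (2 * √2 / Real.pi * y) := by
        rw [hy]
        field_simp
        ring
    _ ≤ 2 * Real.sin y := by linarith

/-- orthogonality -/
theorem top_orth {M : ℕ} (hM : 0 < M) {ζ c : ℂ} (hζ : IsPrimitiveRoot ζ M) (hc : ‖c‖ = 1)
    (G : ℂ[X]) (hG : G.natDegree < M) (m : ℕ) (hm : m < M) :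
    ∑ k ∈ range M, G.eval (c * ζ ^ k) * (starRingEnd ℂ (c * ζ ^ k)) ^ m = M * G.coeff m := by
  have hζ1 : ‖ζ‖ = 1 := by
    have h1 : ‖ζ‖ ^ M = 1 := by rw [← norm_pow, hζ.pow_eq_one, norm_one]
    exact (pow_eq_one_iff_of_nonneg (norm_nonneg _) hM.ne').1 h1
  have hun : ∀ z : ℂ, ‖z‖ = 1 → z * starRingEnd ℂ z = 1 := by
    intro z hz
    rw [Complex.mul_conj, Complex.normSq_eq_norm_sq, hz]
    simp
  have h0 : ∀ k, G.eval (c * ζ ^ k) = ∑ n ∈ range M, G.coeff n * (c * ζ ^ k) ^ n := fun k =>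
    Polynomial.eval_eq_sum_range' hG _
  have h1 : ∀ n ∈ range M, ∑ k ∈ range M, (c * ζ ^ k) ^ n * (starRingEnd ℂ (c * ζ ^ k)) ^ m =
      if n = m then (M : ℂ) else 0 := by
    intro n hn
    have hn' := Finset.mem_range.1 hn
    split_ifs with h
    · subst h
      have h2 : ∀ k ∈ range M, (c * ζ ^ k) ^ n * (starRingEnd ℂ (c * ζ ^ k)) ^ n = 1 := by
        intro k _
        rw [← mul_pow, hun _ (by rw [norm_mul, norm_pow, hc, hζ1]; simp), one_pow]
      rw [Finset.sum_congr rfl h2]
      simp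
    · have h2 : ∀ k ∈ range M, (c * ζ ^ k) ^ n * (starRingEnd ℂ (c * ζ ^ k)) ^ m =
          (c ^ n * (starRingEnd ℂ c) ^ m) * (ζ ^ n * (starRingEnd ℂ ζ) ^ m) ^ k := by
        intro k _
        rw [map_mul, map_pow]
        ring
      rw [Finset.sum_congr rfl h2, ← Finset.mul_sum]
      have hρ : ζ ^ n * (starRingEnd ℂ ζ) ^ m ≠ 1 := by
        intro h3
        apply h
        refine hζ.pow_inj hn' hm ?_
        have h4 : (starRingEnd ℂ ζ) ^ m * ζ ^ m = 1 := by
          rw [← mul_pow, mul_comm, hun ζ hζ1, one_pow]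
        calc ζ ^ n = ζ ^ n * ((starRingEnd ℂ ζ) ^ m * ζ ^ m) := by rw [h4, mul_one]
          _ = (ζ ^ n * (starRingEnd ℂ ζ) ^ m) * ζ ^ m := by ring
          _ = ζ ^ m := by rw [h3, one_mul]
      have hρM : (ζ ^ n * (starRingEnd ℂ ζ) ^ m) ^ M = 1 := by
        rw [mul_pow, ← pow_mul, ← pow_mul, mul_comm n M, mul_comm m M, pow_mul, pow_mul,
          ← map_pow, hζ.pow_eq_one, map_one, one_pow, one_pow, one_mul]
      rw [geom_sum_eq hρ, hρM, sub_self, zero_div, mul_zero]
  calc ∑ k ∈ range M, G.eval (c * ζ ^ k) * (starRingEnd ℂ (c * ζ ^ k)) ^ m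
      = ∑ k ∈ range M, ∑ n ∈ range M, G.coeff n *
          ((c * ζ ^ k) ^ n * (starRingEnd ℂ (c * ζ ^ k)) ^ m) := by
        refine Finset.sum_congr rfl fun k _ => ?_
        rw [h0, Finset.sum_mul]
        refine Finset.sum_congr rfl fun n _ => ?_
        rw [mul_assoc]
    _ = ∑ n ∈ range M, G.coeff n * (if n = m then (M : ℂ) else 0) := by
        rw [Finset.sum_comm]
        refine Finset.sum_congr rfl fun n hn => ?_
        rw [← Finset.mul_sum, h1 n hn]
    _ = M * G.coeff m := by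
        simp only [mul_ite, mul_zero]
        rw [Finset.sum_ite_eq' (range M) m, if_pos (Finset.mem_range.2 hm), mul_comm]

end Pool.Agent.Lib.MP_c1a8e2_al
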