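import Pool.Agent.Lib.MP_c1a8e2_al.h31.Toeplitz

/-!
# Two variables: one degree at a time
-/

set_option autoImplicit false

open Finset

namespace Pool.Agent.Lib.MP_c1a8e2_al

variable {m : ℕ}

/-- the equations of degree `d` have only the zero solution -/
def DegOK (K : Type) [Field K] (m d : ℕ) : Prop :=
  ∀ c : Box 2 m → K, (∀ l, c l ≠ 0 → l.1 0 + l.1 1 = d) →
    (∀ b : Box 2 m, ∑ l, c l * MvPolynomial.coeff (ex b.1) (hConj 2 m K l.1) = 0) → c = 0

/-- The partitions of `d` in the box. -/
abbrev DBox (m d : ℕ) : Type := {l : Box 2 m // l.1 0 + l.1 1 = d}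

/-- the matrix in degree `d` -/
noncomputable def MD (m d : ℕ) : Matrix (DBox m d) (DBox m d) ℤ :=
  (MM 2 m).submatrix Subtype.val Subtype.val

theorem coeff_ne_deg (K : Type) [Field K] (l b : Box 2 m)
    (h : l.1 0 + l.1 1 ≠ b.1 0 + b.1 1) :
    MvPolynomial.coeff (ex b.1) (hConj 2 m K l.1) = 0 := by
  by_contra h3
  have h4 := coeff_hConj l.1 l.2.2 _ h3
  rw [Fin.sum_univ_two, Fin.sum_univ_two, ex_apply, ex_apply] at h4
  exact h h4.symm

open Classical in
theorem degOK_iff (K : Type) [Field K] (d : ℕ) :
    DegOK K m d ↔ (((MD m d).det : ℤ) : K) ≠ 0 := by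
  set M : Matrix (DBox m d) (DBox m d) K := (Int.castRingHom K).mapMatrix (MD m d) with hM
  have hdet : M.det = (((MD m d).det : ℤ) : K) := by
    rw [hM, ← RingHom.map_det]
    rfl
  have hsum : ∀ (g : Box 2 m → K), (∀ l, l.1 0 + l.1 1 ≠ d → g l = 0) →
      ∑ l, g l = ∑ l : DBox m d, g l.1 := by
    intro g hg
    rw [← Finset.sum_subtype (Finset.univ.filter fun l : Box 2 m => l.1 0 + l.1 1 = d)
      (by simp) g, Finset.sum_filter]
    refine Finset.sum_congr rfl fun l _ => ?_
    split_ifs with h
    · rfl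
    · exact hg l h
  have hentry : ∀ l b : DBox m d, M l b =
      MvPolynomial.coeff (ex b.1.1) (hConj 2 m K l.1.1) := by
    intro l b
    rw [coeff_hConj_eq]
    rfl
  rw [← hdet, ne_eq, ← Matrix.exists_vecMul_eq_zero_iff]
  constructor
  · intro h
    rintro ⟨v, hv, hv0⟩
    apply hv
    set c : Box 2 m → K := fun l => if h : l.1 0 + l.1 1 = d then v ⟨l, h⟩ else 0 with hc
    have hc0 : c = 0 := by
      refine h c ?_ ?_
      · intro l hl
        by_contra hne
        apply hl
        rw [hc]
        simp only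
        rw [dif_neg hne]
      · intro b
        by_cases hb : b.1 0 + b.1 1 = d
        · rw [hsum]
          · have h1 := congrFun hv0 ⟨b, hb⟩
            simp only [Matrix.vecMul, dotProduct, Pi.zero_apply] at h1
            rw [← h1]
            refine Finset.sum_congr rfl fun l _ => ?_
            rw [hentry, hc]
            simp only
            rw [dif_pos l.2]
          · intro l hl
            rw [hc]
            simp only
            rw [dif_neg hl, zero_mul]
        · refine Finset.sum_eq_zero fun l _ => ?_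
          by_cases hl : l.1 0 + l.1 1 = d
          · rw [coeff_ne_deg K l b (by omega), mul_zero]
          · rw [hc]
            simp only
            rw [dif_neg hl, zero_mul]
    funext l
    have h1 := congrFun hc0 l.1
    rw [hc] at h1
    simp only [Pi.zero_apply] at h1
    rw [dif_pos l.2] at h1
    exact h1
  · intro h c hsup hc
    have h1 : (fun l : DBox m d => c l.1) = 0 := by
      by_contra hne
      apply h
      refine ⟨_, hne, ?_⟩
      funext b
      simp only [Matrix.vecMul, dotProduct, Pi.zero_apply]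
      rw [← hc b.1, hsum]
      · refine Finset.sum_congr rfl fun l _ => ?_
        rw [hentry]
      · intro l hl
        have : c l = 0 := by
          by_contra h2
          exact hl (hsup l h2)
        rw [this, zero_mul]
    funext l
    by_cases hl : l.1 0 + l.1 1 = d
    · exact congrFun h1 ⟨l, hl⟩
    · by_contra h2
      exact hl (hsup l h2)

theorem nonsing_of_deg
    (h : ∀ d ≤ 2 * m, ∃ (K : Type) (_ : Field K), DegOK K m d) : Nonsing 2 m := by
  classical
  intro c hc
  funext l0
  rw [Pi.zero_apply]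
  set d := l0.1 0 + l0.1 1 with hd
  have hdm : d ≤ 2 * m := by
    have h0 := l0.2.2 0
    have h1 := l0.2.2 1
    omega
  obtain ⟨K, hK, hOK⟩ := h d hdm
  have h1 : (MD m d).det ≠ 0 := by
    intro h0
    rw [degOK_iff, h0] at hOK
    simp at hOK
  have hQ : DegOK ℚ m d := by
    rw [degOK_iff]
    exact_mod_cast h1
  have h2 := hQ (fun l => if l.1 0 + l.1 1 = d then c l else 0) ?_ ?_
  · have h3 := congrFun h2 l0
    simpa [← hd] using h3
  · intro l hl
    by_contra hne
    exact hl (if_neg hne)
  · intro b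
    by_cases hb : b.1 0 + b.1 1 = d
    · rw [← hc b]
      refine Finset.sum_congr rfl fun l _ => ?_
      by_cases hl : l.1 0 + l.1 1 = d
      · rw [if_pos hl]
      · rw [if_neg hl, coeff_ne_deg ℚ l b (by omega), mul_zero, mul_zero]
    · refine Finset.sum_eq_zero fun l _ => ?_
      by_cases hl : l.1 0 + l.1 1 = d
      · rw [coeff_ne_deg ℚ l b (by omega), mul_zero]
      · rw [if_neg hl, zero_mul]

open Polynomial in
/-- the window property for palindromic polynomials -/
def PalWin (L : Type) [Field L] (N s : ℕ) : Prop :=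
  ∀ G : L[X], (X ^ 2 + X + 1) ^ s ∣ G → (∀ n, s + N ≤ n → G.coeff n = 0) →
    (∀ n, s ≤ n → n < N → G.coeff n = 0) →
    (∀ i j, i + j + 1 = s + N → G.coeff i = G.coeff j) → G = 0

theorem Win.pal {L : Type} [Field L] {N s : ℕ} (h : Win L N s) : PalWin L N s :=
  fun G h1 h2 h3 _ => h G h1 h2 h3

theorem degOK_of_palWin (L : Type) [Field L] (w : L) (hw : w ^ 2 + w + 1 = 0) (d : ℕ)
    (hd : d ≤ 2 * m) (hW : PalWin L (m + 1) (d - m)) : DegOK L m d := by
  classical
  intro c hcd0 hc
  set F : MvPolynomial (Fin 2) L := ∑ l : Box 2 m, c l • hConj 2 m L l.1 with hF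
  have hFs : F.IsSymmetric :=
    Subalgebra.sum_mem (MvPolynomial.symmetricSubalgebra (Fin 2) L)
      (fun l _ => MvPolynomial.IsSymmetric.smul _ (hConj_isSymmetric l.1))
  have hFh : ∀ w : Fin 2 →₀ ℕ, MvPolynomial.coeff w F ≠ 0 → w 0 + w 1 = d := by
    intro w hw
    rw [hF, MvPolynomial.coeff_sum] at hw
    obtain ⟨l, _, hl⟩ := Finset.exists_ne_zero_of_sum_ne_zero hw
    rw [MvPolynomial.coeff_smul, smul_eq_mul] at hl
    have h1 := coeff_hConj l.1 l.2.2 w (right_ne_zero_of_mul hl)
    have h2 := hcd0 l (left_ne_zero_of_mul hl)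
    rw [Fin.sum_univ_two, Fin.sum_univ_two] at h1
    omega
  have hFb : ∀ b : Box 2 m, MvPolynomial.coeff (ex b.1) F = 0 := by
    intro b
    rw [← hc b, hF, MvPolynomial.coeff_sum]
    refine Finset.sum_congr rfl fun l _ => ?_
    rw [MvPolynomial.coeff_smul, smul_eq_mul]
  have hF0 := coeff_eq_zero_of_box F hFs hFb
  set G : Polynomial L := sub1 L F with hG
  have hGsum : G = ∑ l : Box 2 m, Polynomial.C (c l) *
      ((Polynomial.X ^ 2 + Polynomial.X + 1) ^ (l.1 1) *
        (Polynomial.X + 1) ^ (l.1 0 - l.1 1)) := by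
    rw [hG, hF, map_sum]
    refine Finset.sum_congr rfl fun l _ => ?_
    rw [map_smul, sub1_hConj, Polynomial.smul_eq_C_mul]
  have hGhigh : ∀ n, d < n → G.coeff n = 0 := by
    intro n hn
    rw [hG, F.as_sum, map_sum, Polynomial.finsetSum_coeff]
    refine Finset.sum_eq_zero fun v hv => ?_
    rw [sub1_monomial, Polynomial.coeff_monomial, if_neg]
    have := hFh v (MvPolynomial.mem_support_iff.mp hv)
    omega
  have hGmid : ∀ n, d - m ≤ n → n ≤ m → G.coeff n = 0 := by
    intro n hn hn'
    by_cases hnd : d < n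
    · exact hGhigh n hnd
    · rw [hG, sub1_coeff L F d hFh n (by omega)]
      apply hF0
      intro i
      fin_cases i
      · simpa using hn'
      · simp only [Fin.mk_one, ex_apply, Matrix.cons_val_one]
        simp
        omega
  have hGpal : ∀ i j, i + j = d → G.coeff i = G.coeff j := by
    intro i j hij
    rw [hG, sub1_coeff L F d hFh i (by omega), sub1_coeff L F d hFh j (by omega)]
    have h1 := coeff_comp_perm F hFs ![i, d - i] (Equiv.swap 0 1)
    rw [← h1]
    congr 2
    funext x
    fin_cases x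
    · simp
      omega
    · simp
      omega
  have hdvd : (Polynomial.X ^ 2 + Polynomial.X + 1 : Polynomial L) ^ (d - m) ∣ G := by
    rw [hGsum]
    refine Finset.dvd_sum fun l _ => ?_
    by_cases h0 : c l = 0
    · rw [h0, Polynomial.C_0, zero_mul]
      exact dvd_zero _
    · have h1 := hcd0 l h0
      have h2 := l.2.2 0
      refine Dvd.dvd.mul_left (Dvd.dvd.mul_right (pow_dvd_pow _ ?_) _) _
      omega
  have hG0 : G = 0 := by
    by_cases hdm : d < m
    · ext n
      rw [Polynomial.coeff_zero]
      by_cases hn : n ≤ m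
      · exact hGmid n (by omega) hn
      · exact hGhigh n (by omega)
    · exact hW G hdvd (fun n hn => hGhigh n (by omega))
        (fun n hn hn' => hGmid n hn (by omega)) (fun i j hij => hGpal i j (by omega))
  exact keyB L w hw d c hcd0 (by rw [← hGsum]; exact hG0)

end Pool.Agent.Lib.MP_c1a8e2_al
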