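import Pool.Agent.Lib.MP_c1a8e2_al.h31.Degree

/-!
# Even multiplicities: positivity
-/

set_option autoImplicit false

open Polynomial Finset

namespace Pool.Agent.Lib.MP_c1a8e2_al

theorem reflect_f : reflect 2 (X ^ 2 + X + 1 : ℝ[X]) = X ^ 2 + X + 1 := by
  ext n
  rw [coeff_reflect]
  by_cases hn : n ≤ 2
  · rw [revAt_le hn]
    interval_cases n <;> simp [coeff_one, coeff_X]
  · have : revAt 2 n = n := revAt_eq_self_of_lt (by omega)
    rw [this]

theorem natDegree_f : (X ^ 2 + X + 1 : ℝ[X]).natDegree = 2 := by compute_degree!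

theorem reflect_f_pow (j : ℕ) :
    reflect (2 * j) ((X ^ 2 + X + 1 : ℝ[X]) ^ j) = (X ^ 2 + X + 1) ^ j := by
  induction j with
  | zero =>
    rw [mul_zero, pow_zero]
    ext n
    rw [coeff_reflect]
    by_cases hn : n ≤ 0
    · have : n = 0 := by omega
      subst this
      rw [revAt_le le_rfl, Nat.sub_zero]
    · rw [revAt_eq_self_of_lt (by omega)]
  | succ j ih =>
    have h1 : ((X ^ 2 + X + 1 : ℝ[X]) ^ j).natDegree ≤ 2 * j := by
      rw [natDegree_pow, natDegree_f, mul_comm]
    rw [pow_succ, show 2 * (j + 1) = 2 * j + 2 by ring,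
      reflect_mul _ _ h1 natDegree_f.le, ih, reflect_f]

theorem win_even (N j : ℕ) (hj : 2 * j < N) : Win ℝ N (2 * j) := by
  intro G hdvd hhigh hmid
  obtain ⟨P, rfl⟩ := hdvd
  by_contra hG0
  have hP0 : P ≠ 0 := by
    rintro rfl
    exact hG0 (mul_zero _)
  have hf0 : (X ^ 2 + X + 1 : ℝ[X]) ≠ 0 := by
    intro h1
    have := natDegree_f
    rw [h1] at this
    simp at this
  set r := N - 1 - 2 * j with hr
  have hdeg : P.natDegree ≤ r := by
    have h1 : ((X ^ 2 + X + 1 : ℝ[X]) ^ (2 * j) * P).natDegree = 2 * j * 2 + P.natDegree := by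
      rw [natDegree_mul (pow_ne_zero _ hf0) hP0, natDegree_pow, natDegree_f]
    by_contra hc
    have h2 := hhigh _ (show 2 * j + N ≤ ((X ^ 2 + X + 1 : ℝ[X]) ^ (2 * j) * P).natDegree by
      rw [h1]; omega)
    rw [coeff_natDegree, leadingCoeff_eq_zero] at h2
    exact hG0 h2
  set Q : ℝ[X] := (X ^ 2 + X + 1) ^ j * P with hQ
  have hjd : ((X ^ 2 + X + 1 : ℝ[X]) ^ j).natDegree ≤ 2 * j := by
    rw [natDegree_pow, natDegree_f, mul_comm]
  have hrefl : reflect (2 * j + r) Q = (X ^ 2 + X + 1) ^ j * reflect r P := by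
    rw [hQ, reflect_mul _ _ hjd hdeg, reflect_f_pow]
  -- first evaluation
  have e1 : (Q * reflect (2 * j + r) Q).coeff (2 * j + r) =
      ∑ x ∈ antidiagonal (2 * j + r), Q.coeff x.1 * Q.coeff x.1 := by
    rw [coeff_mul]
    refine Finset.sum_congr rfl fun x hx => ?_
    rw [HasAntidiagonal.mem_antidiagonal] at hx
    rw [coeff_reflect, revAt_le (by omega)]
    congr 2
    omega
  have e2 : (Q * reflect (2 * j + r) Q).coeff (2 * j + r) = 0 := by
    have h1 : Q * reflect (2 * j + r) Q =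
        ((X ^ 2 + X + 1) ^ (2 * j) * P) * reflect r P := by
      rw [hrefl, hQ]
      ring
    rw [h1, coeff_mul]
    refine Finset.sum_eq_zero fun x hx => ?_
    rw [HasAntidiagonal.mem_antidiagonal] at hx
    by_cases hx2 : x.2 ≤ r
    · rw [hmid x.1 (by omega) (by omega), zero_mul]
    · have h5 : P.coeff x.2 = 0 := coeff_eq_zero_of_natDegree_lt (by omega)
      rw [coeff_reflect, revAt_eq_self_of_lt (by omega), h5, mul_zero]
  rw [e1] at e2
  have h3 := (Finset.sum_eq_zero_iff_of_nonneg (fun x _ => mul_self_nonneg _)).mp e2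
  have hQ0 : Q = 0 := by
    ext n
    rw [coeff_zero]
    by_cases hn : n ≤ 2 * j + r
    · have h4 := h3 (n, 2 * j + r - n) (by rw [HasAntidiagonal.mem_antidiagonal]; simp only; omega)
      exact mul_self_eq_zero.mp h4
    · apply coeff_eq_zero_of_natDegree_lt
      refine lt_of_le_of_lt natDegree_mul_le ?_
      omega
  rcases mul_eq_zero.mp hQ0 with h4 | h4
  · exact pow_ne_zero _ hf0 h4
  · exact hP0 h4

/-- In even multiplicity everything is fine over `ℂ`. -/
theorem palWin_even (N s : ℕ) (hs : Even s) (hsN : s < N) : PalWin ℂ N s := by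
  obtain ⟨j, hj⟩ := hs
  have hj2 : s = 2 * j := by omega
  subst hj2
  have h1 := det_of_win ℝ N (2 * j) hsN (win_even N j hsN)
  have h2 : (toep (2 * j) N).det ≠ 0 := by
    intro h0
    rw [h0] at h1
    simp at h1
  refine (win_of_det ℂ N (2 * j) ?_).pal
  exact_mod_cast h2

/-- It suffices to treat odd multiplicities, each over some field with a root of
`x ^ 2 + x + 1`. -/
theorem nonsing_of_odd (m : ℕ)
    (h : ∀ s, Odd s → s ≤ m → ∃ (L : Type) (_ : Field L) (w : L), w ^ 2 + w + 1 = 0 ∧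
      PalWin L (m + 1) s) : Nonsing 2 m := by
  refine nonsing_of_deg fun d hd => ?_
  rcases Nat.even_or_odd (d - m) with he | ho
  · obtain ⟨w, hw⟩ := exists_root_f ℂ
    exact ⟨ℂ, inferInstance, degOK_of_palWin ℂ w hw d hd
      (palWin_even (m + 1) (d - m) he (by omega))⟩
  · obtain ⟨L, hL, w, hw, hW⟩ := h (d - m) ho (by omega)
    exact ⟨L, hL, degOK_of_palWin L w hw d hd hW⟩

/-- The criterion with prime powers dividing `m + 1`. -/
theorem exists_of_tensor (m s : ℕ) (hsm : s ≤ m)
    (h : ∃ p a : ℕ, p.Prime ∧ p ≠ 3 ∧ p ^ a ∣ m + 1 ∧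
      ¬ (p : ℤ) ∣ (toep (s / p ^ a) ((m + 1) / p ^ a)).det ∧
      ¬ (p : ℤ) ∣ (toep ((s + p ^ a - 1) / p ^ a) ((m + 1) / p ^ a)).det) :
    ∃ (L : Type) (_ : Field L) (w : L), w ^ 2 + w + 1 = 0 ∧ PalWin L (m + 1) s := by
  obtain ⟨p, a, hp, hp3, ⟨t, ht⟩, h1, h2⟩ := h
  have : Fact p.Prime := ⟨hp⟩
  have hq : 0 < p ^ a := pow_pos hp.pos a
  have hdiv : (m + 1) / p ^ a = t := by
    rw [ht, Nat.mul_div_cancel_left t hq]
  rw [hdiv] at h1 h2
  obtain ⟨w, hw⟩ := exists_root_f (AlgebraicClosure (ZMod p))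
  refine ⟨AlgebraicClosure (ZMod p), inferInstance, w, hw, ?_⟩
  have hN : m + 1 = t * p ^ a := by rw [ht, mul_comm]
  rw [hN]
  refine (win_mul (AlgebraicClosure (ZMod p)) p a hp3 w hw t s (by rw [← hN]; omega) ?_ ?_).pal
  · refine win_of_det _ t _ fun h0 => h1 ?_
    exact (CharP.intCast_eq_zero_iff (AlgebraicClosure (ZMod p)) p _).mp h0
  · intro hmod
    have h3 : (s + p ^ a - 1) / p ^ a = s / p ^ a + 1 := by
      have h4 : s = s % p ^ a + p ^ a * (s / p ^ a) := (Nat.mod_add_div s (p ^ a)).symm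
      have h5 : s % p ^ a < p ^ a := Nat.mod_lt s hq
      have h6 : s + p ^ a - 1 = (s % p ^ a - 1) + p ^ a * (s / p ^ a + 1) := by
        have h7 : 0 < s % p ^ a := Nat.pos_of_ne_zero hmod
        rw [mul_add, mul_one]
        generalize s % p ^ a = e at h4 h5 h7 ⊢
        generalize p ^ a * (s / p ^ a) = g at h4 ⊢
        omega
      rw [h6, Nat.add_mul_div_left _ _ hq, Nat.div_eq_of_lt (by omega), zero_add]
    rw [h3] at h2
    refine win_of_det _ t _ fun h0 => h2 ?_
    exact (CharP.intCast_eq_zero_iff (AlgebraicClosure (ZMod p)) p _).mp h0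

/-- If `p ≠ 3` divides none of the determinants for `t`, then it divides none of those for
`t * p ^ a`. -/
theorem toep_mul (p a : ℕ) (hp : p.Prime) (hp3 : p ≠ 3) (t : ℕ)
    (h : ∀ i, 0 < i → i < t → ¬ (p : ℤ) ∣ (toep i t).det) :
    ∀ i, i < t * p ^ a → ¬ (p : ℤ) ∣ (toep i (t * p ^ a)).det := by
  have : Fact p.Prime := ⟨hp⟩
  have hq : 0 < p ^ a := pow_pos hp.pos a
  obtain ⟨w, hw⟩ := exists_root_f (AlgebraicClosure (ZMod p))
  have hW : ∀ i ≤ t, Win (AlgebraicClosure (ZMod p)) t i := by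
    intro i hi
    refine win_of_det _ t i fun h0 => ?_
    have h1 : (p : ℤ) ∣ (toep i t).det :=
      (CharP.intCast_eq_zero_iff (AlgebraicClosure (ZMod p)) p _).mp h0
    rcases Nat.eq_zero_or_pos i with h2 | h2
    · subst h2
      have h3 : (toep 0 t).det = 1 := by
        have h4 : toep 0 t = 1 := by
          ext a b
          unfold toep
          rw [pow_zero, Matrix.one_apply, Polynomial.coeff_one]
          by_cases hab : a = b
          · subst hab
            simp
          · have hab' : (a : ℕ) ≠ b := fun h => hab (Fin.ext h)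
            rw [if_neg hab]
            by_cases h5 : (b : ℕ) ≤ 0 + a
            · rw [if_pos h5, if_neg (by omega)]
            · rw [if_neg h5]
        rw [h4, Matrix.det_one]
      rw [h3] at h1
      exact hp.one_lt.ne' (by exact_mod_cast Int.eq_one_of_dvd_one (by positivity) h1)
    · rcases Nat.lt_or_ge i t with h3 | h3
      · exact h i h2 h3 h1
      · have h4 : i = t := le_antisymm hi h3
        subst h4
        have h5 : (toep i i).det = 1 := by
          have : IsEmpty (Fin (i - i)) := by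
            rw [Nat.sub_self]
            infer_instance
          exact Matrix.det_isEmpty
        rw [h5] at h1
        exact hp.one_lt.ne' (by exact_mod_cast Int.eq_one_of_dvd_one (by positivity) h1)
  intro i hi hdvd
  have hdivt : i / p ^ a < t := Nat.div_lt_of_lt_mul (by rwa [mul_comm] at hi)
  have hW' := win_mul (AlgebraicClosure (ZMod p)) p a hp3 w hw t i hi.le
    (hW _ hdivt.le) (fun _ => hW _ hdivt)
  exact det_of_win _ _ i hi hW'
    ((CharP.intCast_eq_zero_iff (AlgebraicClosure (ZMod p)) p _).mpr hdvd)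

end Pool.Agent.Lib.MP_c1a8e2_al
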