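import Pool.Agent.Lib.MP_c1a8e2_al.h31.Even

/-!
# Two variables: `m + 1` next to a prime (power)
-/

set_option autoImplicit false

open Polynomial Finset

namespace Pool.Agent.Lib.MP_c1a8e2_al

section General

variable {L : Type} [Field L]

/-- A polynomial with a window of zero coefficients is a sum of two short ones. -/
theorem split_window (G : L[X]) (s N : ℕ) (hhigh : ∀ n, s + N ≤ n → G.coeff n = 0)
    (hmid : ∀ n, s ≤ n → n < N → G.coeff n = 0) :
    ∃ A B : L[X], (∀ n, A.coeff n = if n < s ∧ n < N then G.coeff n else 0) ∧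
      (∀ n, B.coeff n = if n < s then G.coeff (N + n) else 0) ∧ G = A + X ^ N * B := by
  refine ⟨∑ j ∈ range (min s N), C (G.coeff j) * X ^ j,
    ∑ j ∈ range s, C (G.coeff (N + j)) * X ^ j, ?_, ?_, ?_⟩
  · intro n
    rw [Polynomial.finsetSum_coeff]
    simp only [coeff_C_mul_X_pow]
    rw [Finset.sum_ite_eq (range (min s N)) n]
    simp only [Finset.mem_range, lt_min_iff]
  · intro n
    rw [Polynomial.finsetSum_coeff]
    simp only [coeff_C_mul_X_pow]
    rw [Finset.sum_ite_eq (range s) n]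
    simp only [Finset.mem_range]
  · ext n
    rw [coeff_add, coeff_X_pow_mul', Polynomial.finsetSum_coeff, Polynomial.finsetSum_coeff]
    simp only [coeff_C_mul_X_pow]
    rw [Finset.sum_ite_eq (range (min s N)) n, Finset.sum_ite_eq (range s) (n - N)]
    simp only [Finset.mem_range, lt_min_iff]
    by_cases h1 : n < N
    · rw [if_neg (show ¬ N ≤ n by omega), add_zero]
      by_cases h2 : n < s
      · rw [if_pos ⟨h2, h1⟩]
      · rw [if_neg (fun h => h2 h.1)]
        exact hmid n (by omega) h1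
    · rw [if_pos (show N ≤ n by omega), if_neg (fun h => h1 h.2), zero_add]
      by_cases h2 : n - N < s
      · rw [if_pos h2]
        congr 1
        omega
      · rw [if_neg h2]
        exact hhigh n (by omega)

theorem quot_deg (v : L) (s e : ℕ) (E : L[X]) (hE : ∀ n, s + e < n → E.coeff n = 0)
    (h : (X - C v) ^ s ∣ E) : ∃ K : L[X], K.natDegree ≤ e ∧ E = (X - C v) ^ s * K := by
  obtain ⟨K, rfl⟩ := h
  refine ⟨K, ?_, rfl⟩
  by_contra hc
  have hK : K ≠ 0 := by
    rintro rfl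
    simp at hc
  have hm : ((X - C v) ^ s : L[X]).Monic := (monic_X_sub_C v).pow s
  have h1 : ((X - C v) ^ s * K).natDegree = s + K.natDegree := by
    rw [hm.natDegree_mul' hK, natDegree_pow, natDegree_X_sub_C, mul_one]
  have h2 := hE ((X - C v) ^ s * K).natDegree (by rw [h1]; omega)
  rw [coeff_natDegree, leadingCoeff_eq_zero] at h2
  exact (mul_ne_zero hm.ne_zero hK) h2

theorem pow_coeff_top (v : L) (s : ℕ) : ((X - C v) ^ s : L[X]).coeff s = 1 := by
  have hm : ((X - C v) ^ s : L[X]).Monic := (monic_X_sub_C v).pow s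
  have h1 : ((X - C v) ^ s : L[X]).natDegree = s := by
    rw [natDegree_pow, natDegree_X_sub_C, mul_one]
  have := hm.coeff_natDegree
  rwa [h1] at this

theorem pow_coeff_zero (v : L) (s : ℕ) : ((X - C v) ^ s : L[X]).coeff 0 = (-v) ^ s := by
  rw [coeff_zero_eq_eval_zero]
  simp

theorem add_root_ne (v : L) (hv : v ^ 3 = 1) (h2 : (2 : L) ≠ 0) (a b : ℕ) :
    v ^ a + v ^ b ≠ 0 := by
  intro h
  have h1 : v ^ a = -v ^ b := eq_neg_of_add_eq_zero_left h
  have h3 : (v ^ a) ^ 3 = (-v ^ b) ^ 3 := by rw [h1]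
  have h4 : (v ^ a) ^ 3 = 1 := by rw [← pow_mul, mul_comm, pow_mul, hv, one_pow]
  have h5 : (-v ^ b) ^ 3 = -1 := by
    have : (v ^ b) ^ 3 = 1 := by rw [← pow_mul, mul_comm, pow_mul, hv, one_pow]
    rw [Odd.neg_pow (by decide), this]
  rw [h4, h5] at h3
  apply h2
  linear_combination h3

/-- From the two congruences to `G = 0`. -/
theorem both_zero (u v : L) (huv : u ≠ v) (A B : L[X]) (h1 : A + C u * B = 0)
    (h2 : A + C v * B = 0) : A = 0 ∧ B = 0 := by
  have h3 : C (u - v) * B = 0 := by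
    rw [C_sub]
    linear_combination h1 - h2
  have h4 : B = 0 := by
    rcases mul_eq_zero.mp h3 with h5 | h5
    · exfalso
      rw [C_eq_zero, sub_eq_zero] at h5
      exact huv h5
    · exact h5
  refine ⟨?_, h4⟩
  rwa [h4, mul_zero, add_zero] at h1

end General

section Frob

variable (L : Type) [Field L] (p a : ℕ) [hp : Fact p.Prime] [CharP L p]

theorem three_ne (hp3 : p ≠ 3) : (3 : L) ≠ 0 := by
  intro h0
  have h1 : ((3 : ℕ) : L) = 0 := by exact_mod_cast h0
  rw [CharP.cast_eq_zero_iff L p] at h1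
  exact hp3 ((Nat.prime_dvd_prime_iff_eq hp.out Nat.prime_three).mp h1)

theorem two_ne (hp2 : p ≠ 2) : (2 : L) ≠ 0 := by
  intro h0
  have h1 : ((2 : ℕ) : L) = 0 := by exact_mod_cast h0
  rw [CharP.cast_eq_zero_iff L p] at h1
  exact hp2 ((Nat.prime_dvd_prime_iff_eq hp.out Nat.prime_two).mp h1)

theorem ne_frob (hp3 : p ≠ 3) (w : L) (hw : w ^ 2 + w + 1 = 0) :
    w ^ (p ^ a) ≠ (w ^ 2) ^ (p ^ a) :=
  root_pow_ne L (three_ne L p hp3) w hw _
    (Nat.Coprime.pow_left a ((Nat.coprime_primes hp.out Nat.prime_three).mpr hp3))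

theorem root_sq (w : L) (hw : w ^ 2 + w + 1 = 0) : (w ^ 2) ^ 2 + w ^ 2 + 1 = 0 := by
  have h1 := cube_root L w hw
  linear_combination hw + w * h1

/-- `(X - v) ^ s ∣ A + X ^ q B` gives `(X - v) ^ s ∣ A + v ^ q B`, `s ≤ q`. -/
theorem dvd_frob (v : L) (A B : L[X]) (s : ℕ) (hs : s ≤ p ^ a)
    (h : (X - C v) ^ s ∣ A + X ^ (p ^ a) * B) :
    (X - C v) ^ s ∣ A + C (v ^ (p ^ a)) * B := by
  have h1 : (X : L[X]) ^ (p ^ a) - C (v ^ (p ^ a)) = (X - C v) ^ (p ^ a) := by
    rw [sub_pow_char_pow, C_pow]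
  have h3 : A + C (v ^ (p ^ a)) * B = (A + X ^ (p ^ a) * B) -
      ((X : L[X]) ^ (p ^ a) - C (v ^ (p ^ a))) * B := by ring
  rw [h3, h1]
  exact dvd_sub h (Dvd.dvd.mul_right (pow_dvd_pow _ hs) B)

theorem root_pow_dvd (v : L) (hv : v ^ 2 + v + 1 = 0) (s : ℕ) (G : L[X])
    (h : (X ^ 2 + X + 1) ^ s ∣ G) : (X - C v) ^ s ∣ G := by
  refine dvd_trans (pow_dvd_pow_of_dvd ?_ s) h
  rw [dvd_iff_isRoot]
  simpa using hv

/-- `N + 1 = q` -/
theorem pal_minus_one (hp2 : p ≠ 2) (hp3 : p ≠ 3) (w : L) (hw : w ^ 2 + w + 1 = 0)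
    (N s : ℕ) (hN : N + 1 = p ^ a) (hs : Odd s) (hsN : s ≤ N) : PalWin L N s := by
  intro G hdvd hhigh hmid hpal
  have hs1 : 1 ≤ s := hs.pos
  obtain ⟨A, B, hA, hB, hG⟩ := split_window G s N hhigh hmid
  have key : ∀ v : L, v ^ 2 + v + 1 = 0 → X * A + C (v ^ (p ^ a)) * B = 0 := by
    intro v hv
    have hv3 := cube_root L v hv
    have h1 : (X - C v) ^ s ∣ X * A + C (v ^ (p ^ a)) * B := by
      apply dvd_frob L p a v (X * A) B s (by omega)
      have h2 : X * A + X ^ (p ^ a) * B = X * G := by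
        rw [hG, ← hN]
        ring
      rw [h2]
      exact Dvd.dvd.mul_left (root_pow_dvd L v hv s G hdvd) X
    obtain ⟨K, hK, hE⟩ := quot_deg v s 0 _ (by
      intro n hn
      rw [coeff_add, coeff_C_mul, hB n, if_neg (by omega), mul_zero, add_zero]
      obtain ⟨n', rfl⟩ : ∃ n', n = n' + 1 := ⟨n - 1, by omega⟩
      rw [coeff_X_mul, hA n', if_neg (by omega)]) h1
    rw [Nat.le_zero, natDegree_eq_zero] at hK
    obtain ⟨k, rfl⟩ := hK
    have e1 := congrArg (fun g : L[X] => g.coeff s) hE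
    have e2 := congrArg (fun g : L[X] => g.coeff 0) hE
    simp only [coeff_add, coeff_C_mul, coeff_mul_C, pow_coeff_top, pow_coeff_zero] at e1 e2
    obtain ⟨s', rfl⟩ : ∃ s', s = s' + 1 := ⟨s - 1, by omega⟩
    have a1 : A.coeff s' = G.coeff s' := by rw [hA, if_pos (by omega)]
    have b1 : B.coeff (s' + 1) = 0 := by rw [hB, if_neg (by omega)]
    have b0 : B.coeff 0 = G.coeff (N + 0) := by rw [hB, if_pos (by omega)]
    rw [coeff_X_mul, a1, b1] at e1
    rw [mul_coeff_zero, coeff_X_zero, b0] at e2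
    have hgg : G.coeff s' = G.coeff (N + 0) := hpal s' (N + 0) (by omega)
    rw [← hgg, Odd.neg_pow hs] at e2
    have h3 : k * (v ^ (p ^ a) + v ^ (s' + 1)) = 0 := by
      linear_combination e2 - v ^ (p ^ a) * e1
    have h4 : k = 0 :=
      (mul_eq_zero.mp h3).resolve_right (add_root_ne v hv3 (two_ne L p hp2) _ _)
    rw [hE, h4, C_0, mul_zero]
  obtain ⟨h1, h2⟩ := both_zero _ _ (ne_frob L p a hp3 w hw) (X * A) B (key w hw)
    (key (w ^ 2) (root_sq L w hw))
  have h3 : A = 0 := (mul_eq_zero.mp h1).resolve_left X_ne_zero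
  rw [hG, h3, h2, mul_zero, add_zero]

/-- `N = q + 1` -/
theorem pal_plus_one (hp2 : p ≠ 2) (hp3 : p ≠ 3) (w : L) (hw : w ^ 2 + w + 1 = 0)
    (N s : ℕ) (hN : N = p ^ a + 1) (hs : Odd s) (hsN : s ≤ p ^ a) : PalWin L N s := by
  intro G hdvd hhigh hmid hpal
  have hs1 : 1 ≤ s := hs.pos
  obtain ⟨A, B, hA, hB, hG⟩ := split_window G s N hhigh hmid
  have key : ∀ v : L, v ^ 2 + v + 1 = 0 → A + C (v ^ (p ^ a)) * (X * B) = 0 := by
    intro v hv
    have hv3 := cube_root L v hv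
    have h1 : (X - C v) ^ s ∣ A + C (v ^ (p ^ a)) * (X * B) := by
      apply dvd_frob L p a v A (X * B) s hsN
      have h2 : A + X ^ (p ^ a) * (X * B) = G := by
        rw [hG, hN]
        ring
      rw [h2]
      exact root_pow_dvd L v hv s G hdvd
    obtain ⟨K, hK, hE⟩ := quot_deg v s 0 _ (by
      intro n hn
      obtain ⟨n', rfl⟩ : ∃ n', n = n' + 1 := ⟨n - 1, by omega⟩
      rw [coeff_add, coeff_C_mul, coeff_X_mul, hB n', hA (n' + 1), if_neg (by omega),
        if_neg (by omega), mul_zero, add_zero]) h1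
    rw [Nat.le_zero, natDegree_eq_zero] at hK
    obtain ⟨k, rfl⟩ := hK
    have e1 := congrArg (fun g : L[X] => g.coeff s) hE
    have e2 := congrArg (fun g : L[X] => g.coeff 0) hE
    simp only [coeff_add, coeff_C_mul, coeff_mul_C, pow_coeff_top, pow_coeff_zero] at e1 e2
    obtain ⟨s', rfl⟩ : ∃ s', s = s' + 1 := ⟨s - 1, by omega⟩
    have a1 : A.coeff (s' + 1) = 0 := by rw [hA, if_neg (by omega)]
    have b1 : B.coeff s' = G.coeff (N + s') := by rw [hB, if_pos (by omega)]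
    have a0 : A.coeff 0 = G.coeff 0 := by rw [hA, if_pos (by omega)]
    rw [coeff_X_mul, a1, b1] at e1
    rw [mul_coeff_zero, coeff_X_zero, a0] at e2
    have hgg : G.coeff 0 = G.coeff (N + s') := hpal 0 (N + s') (by omega)
    rw [hgg, Odd.neg_pow hs] at e2
    have h3 : G.coeff (N + s') * (v ^ (p ^ a + (s' + 1)) + v ^ 0) = 0 := by
      rw [pow_add v (p ^ a) (s' + 1)]
      linear_combination e2 + v ^ (s' + 1) * e1
    have h4 : G.coeff (N + s') = 0 :=
      (mul_eq_zero.mp h3).resolve_right (add_root_ne v hv3 (two_ne L p hp2) _ _)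
    rw [h4] at e1
    have h5 : k = 0 := by linear_combination -e1
    rw [hE, h5, C_0, mul_zero]
  obtain ⟨h1, h2⟩ := both_zero _ _ (ne_frob L p a hp3 w hw) A (X * B) (key w hw)
    (key (w ^ 2) (root_sq L w hw))
  have h3 : B = 0 := (mul_eq_zero.mp h2).resolve_left X_ne_zero
  rw [hG, h1, h3, mul_zero, add_zero]

end Frob

end Pool.Agent.Lib.MP_c1a8e2_al
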