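import Pool.Agent.Lib.MP_c1a8e2_al.h31.Window

/-!
# The Toeplitz determinants of the powers of `1 + x + x ^ 2`
-/

set_option autoImplicit false

open Polynomial Finset

namespace Pool.Agent.Lib.MP_c1a8e2_al

/-- The `(t - i) × (t - i)` Toeplitz matrix whose entry at `(a, b)` is the coefficient of
`x ^ (i + a - b)` in `(1 + x + x ^ 2) ^ i` (zero if `i + a < b`). -/
noncomputable def toep (i t : ℕ) : Matrix (Fin (t - i)) (Fin (t - i)) ℤ :=
  fun a b => if (b : ℕ) ≤ i + a then ((X ^ 2 + X + 1 : ℤ[X]) ^ i).coeff (i + a - b) else 0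

theorem f_map (L : Type) [Field L] (i n : ℕ) :
    ((X ^ 2 + X + 1 : L[X]) ^ i).coeff n =
      ((((X ^ 2 + X + 1 : ℤ[X]) ^ i).coeff n : ℤ) : L) := by
  have h : (X ^ 2 + X + 1 : L[X]) ^ i =
      ((X ^ 2 + X + 1 : ℤ[X]) ^ i).map (Int.castRingHom L) := by
    simp
  rw [h, coeff_map]
  rfl

/-- the matrix over a field -/
noncomputable def toepL (L : Type) [Field L] (i t : ℕ) :
    Matrix (Fin (t - i)) (Fin (t - i)) L :=
  (Int.castRingHom L).mapMatrix (toep i t)

theorem toepL_det (L : Type) [Field L] (i t : ℕ) :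
    (toepL L i t).det = (((toep i t).det : ℤ) : L) := by
  rw [toepL, ← RingHom.map_det]
  rfl

/-- the polynomial with given coefficients -/
noncomputable def ofVec (L : Type) [Field L] (m : ℕ) (v : Fin m → L) : L[X] :=
  ∑ b : Fin m, C (v b) * X ^ (b : ℕ)

theorem ofVec_coeff (L : Type) [Field L] (m : ℕ) (v : Fin m → L) (n : ℕ) :
    (ofVec L m v).coeff n = if h : n < m then v ⟨n, h⟩ else 0 := by
  rw [ofVec, Polynomial.finsetSum_coeff]
  simp only [coeff_C_mul_X_pow]
  by_cases h : n < m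
  · rw [dif_pos h, Finset.sum_eq_single (⟨n, h⟩ : Fin m)]
    · simp
    · intro b _ hb
      rw [if_neg]
      intro hn
      apply hb
      exact Fin.ext hn.symm
    · intro h'
      exact absurd (Finset.mem_univ _) h'
  · rw [dif_neg h]
    refine Finset.sum_eq_zero fun b _ => ?_
    rw [if_neg]
    have := b.2
    omega

theorem coeff_mul_ofVec (L : Type) [Field L] (i t : ℕ) (v : Fin (t - i) → L) (a : Fin (t - i)) :
    ((X ^ 2 + X + 1) ^ i * ofVec L (t - i) v).coeff (i + a) = ((toepL L i t).mulVec v) a := by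
  rw [ofVec, Finset.mul_sum, Polynomial.finsetSum_coeff]
  simp only [Matrix.mulVec, dotProduct]
  refine Finset.sum_congr rfl fun b _ => ?_
  have h1 : (X ^ 2 + X + 1 : L[X]) ^ i * (C (v b) * X ^ (b : ℕ)) =
      C (v b) * ((X ^ 2 + X + 1) ^ i * X ^ (b : ℕ)) := by ring
  rw [h1, coeff_C_mul, coeff_mul_X_pow']
  unfold toepL toep
  rw [RingHom.mapMatrix_apply, Matrix.map_apply]
  by_cases h : (b : ℕ) ≤ i + a
  · rw [if_pos h, if_pos h, f_map]
    simp [mul_comm]
  · rw [if_neg h, if_neg h]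
    simp

/-- A nonzero determinant gives the window property. -/
theorem win_of_det (L : Type) [Field L] (t s : ℕ) (h : (((toep s t).det : ℤ) : L) ≠ 0) :
    Win L t s := by
  intro G hdvd hhigh hmid
  obtain ⟨P, rfl⟩ := hdvd
  by_cases hP0 : P = 0
  · rw [hP0, mul_zero]
  exfalso
  have hfdeg : (X ^ 2 + X + 1 : L[X]).natDegree = 2 := by compute_degree!
  have hf0 : (X ^ 2 + X + 1 : L[X]) ≠ 0 := by
    intro h1
    rw [h1] at hfdeg
    simp at hfdeg
  have hdeg : P.natDegree < t - s := by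
    have h1 : ((X ^ 2 + X + 1 : L[X]) ^ s * P).natDegree = s * 2 + P.natDegree := by
      rw [natDegree_mul (pow_ne_zero s hf0) hP0, natDegree_pow, hfdeg]
    by_contra hc
    have h2 := hhigh _ (show s + t ≤ ((X ^ 2 + X + 1 : L[X]) ^ s * P).natDegree by
      rw [h1]; omega)
    rw [coeff_natDegree, leadingCoeff_eq_zero] at h2
    exact (mul_ne_zero (pow_ne_zero s hf0) hP0) h2
  set v : Fin (t - s) → L := fun b => P.coeff b with hv
  have hPv : P = ofVec L (t - s) v := by
    ext n
    rw [ofVec_coeff]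
    by_cases hn : n < t - s
    · rw [dif_pos hn]
    · rw [dif_neg hn]
      exact coeff_eq_zero_of_natDegree_lt (by omega)
  have hM : (toepL L s t).mulVec v = 0 := by
    funext a
    rw [← coeff_mul_ofVec, ← hPv, Pi.zero_apply]
    have := a.2
    exact hmid _ (by omega) (by omega)
  have hdet : (toepL L s t).det = 0 := by
    apply Matrix.exists_mulVec_eq_zero_iff.mp
    refine ⟨v, ?_, hM⟩
    intro hv0
    apply hP0
    rw [hPv, hv0]
    ext n
    rw [ofVec_coeff]
    split_ifs <;> simp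
  rw [toepL_det] at hdet
  exact h hdet

/-- The window property gives nonzero determinants. -/
theorem det_of_win (L : Type) [Field L] (t i : ℕ) (hi : i < t) (hW : Win L t i) :
    (((toep i t).det : ℤ) : L) ≠ 0 := by
  intro h
  rw [← toepL_det] at h
  obtain ⟨v, hv, hv0⟩ := Matrix.exists_mulVec_eq_zero_iff.mpr h
  have hfdeg : (X ^ 2 + X + 1 : L[X]).natDegree = 2 := by compute_degree!
  have hf0 : (X ^ 2 + X + 1 : L[X]) ≠ 0 := by
    intro h1
    rw [h1] at hfdeg
    simp at hfdeg
  have hVd : (ofVec L (t - i) v).natDegree ≤ t - i - 1 := by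
    rw [natDegree_le_iff_coeff_eq_zero]
    intro n hn
    rw [ofVec_coeff, dif_neg (by omega)]
  have h1 := hW ((X ^ 2 + X + 1) ^ i * ofVec L (t - i) v) (dvd_mul_right _ _) ?_ ?_
  · have h2 := (mul_eq_zero.mp h1).resolve_left (pow_ne_zero _ hf0)
    apply hv
    funext b
    have h3 := congrArg (fun g : L[X] => g.coeff b) h2
    simp only [ofVec_coeff, coeff_zero] at h3
    rw [dif_pos b.2] at h3
    exact h3
  · intro n hn
    apply coeff_eq_zero_of_natDegree_lt
    refine lt_of_le_of_lt (natDegree_mul_le) ?_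
    rw [natDegree_pow, hfdeg]
    omega
  · intro n hn hnt
    have h2 : n = i + ((⟨n - i, by omega⟩ : Fin (t - i)) : ℕ) := by
      simp only
      omega
    rw [h2, coeff_mul_ofVec, hv0, Pi.zero_apply]

/-- There is a root of `x ^ 2 + x + 1`. -/
theorem exists_root_f (L : Type) [Field L] [IsAlgClosed L] : ∃ w : L, w ^ 2 + w + 1 = 0 := by
  obtain ⟨w, hw⟩ := IsAlgClosed.exists_root (k := L) (X ^ 2 + X + 1) (by
      have : (X ^ 2 + X + 1 : L[X]).degree = 2 := by compute_degree!
      rw [this]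
      norm_num)
  exact ⟨w, by simpa using hw⟩

end Pool.Agent.Lib.MP_c1a8e2_al
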