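import Pool.Agent.Lib.MP_c1a8e2_al.h30.TwoMain

/-!
# Two variables: polynomials with a window of zero coefficients

`Win L N s`: a polynomial `G` of degree `< s + N` that is divisible by `(X ^ 2 + X + 1) ^ s`
and whose coefficients with `s ≤ n < N` are all zero is itself zero. In characteristic `p ≠ 3`,
`q = p ^ a`, this property for `(t, ⌊s/q⌋)` and `(t, ⌈s/q⌉)` gives it for `(t * q, s)`.
-/

set_option autoImplicit false

open Polynomial Finset

namespace Pool.Agent.Lib.MP_c1a8e2_al

/-- the window property -/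
def Win (L : Type) [Field L] (N s : ℕ) : Prop :=
  ∀ G : L[X], (X ^ 2 + X + 1) ^ s ∣ G → (∀ n, s + N ≤ n → G.coeff n = 0) →
    (∀ n, s ≤ n → n < N → G.coeff n = 0) → G = 0

section Blocks

variable {L : Type} [Field L] {q : ℕ}

theorem coeff_block (hq : 0 < q) (A : ℕ → L[X]) (i l : ℕ) (hi : i < q) :
    (∑ j ∈ range q, X ^ j * expand L q (A j)).coeff (i + q * l) = (A i).coeff l := by
  rw [Polynomial.finsetSum_coeff, Finset.sum_eq_single i]
  · rw [coeff_X_pow_mul', if_pos (by omega), coeff_expand hq]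
    have h1 : i + q * l - i = q * l := by omega
    rw [h1, if_pos (dvd_mul_right q l), Nat.mul_div_cancel_left l hq]
  · intro j hj hne
    rw [Finset.mem_range] at hj
    rw [coeff_X_pow_mul']
    by_cases h : j ≤ i + q * l
    · rw [if_pos h, coeff_expand hq, if_neg]
      rintro ⟨c, hc⟩
      apply hne
      have h2 : i + q * l = j + q * c := by omega
      have h3 : (i + q * l) % q = (j + q * c) % q := by rw [h2]
      rw [Nat.add_mul_mod_self_left, Nat.add_mul_mod_self_left, Nat.mod_eq_of_lt hi,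
        Nat.mod_eq_of_lt hj] at h3
      exact h3.symm
    · rw [if_neg h]
  · intro h
    exact absurd (Finset.mem_range.mpr hi) h

theorem exists_block (hq : 0 < q) (H : L[X]) :
    ∃ A : ℕ → L[X], H = ∑ j ∈ range q, X ^ j * expand L q (A j) := by
  refine ⟨fun j => ∑ l ∈ range (H.natDegree + 1), C (H.coeff (j + q * l)) * X ^ l, ?_⟩
  ext n
  have hn : n = n % q + q * (n / q) := (Nat.mod_add_div n q).symm
  rw [hn, coeff_block hq _ _ _ (Nat.mod_lt n hq), Polynomial.finsetSum_coeff]
  simp only [coeff_C_mul_X_pow]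
  rw [Finset.sum_ite_eq (range (H.natDegree + 1)) (n / q)]
  by_cases h : n / q < H.natDegree + 1
  · rw [if_pos (Finset.mem_range.mpr h)]
  · rw [if_neg (by simpa using h)]
    apply coeff_eq_zero_of_natDegree_lt
    have h1 : n / q ≤ q * (n / q) := Nat.le_mul_of_pos_left _ hq
    omega

end Blocks

theorem frob_f (L : Type) [Field L] (p a : ℕ) [Fact p.Prime] [CharP L p] :
    (X ^ 2 + X + 1 : L[X]) ^ (p ^ a) = expand L (p ^ a) (X ^ 2 + X + 1) := by
  rw [add_pow_char_pow, add_pow_char_pow, one_pow, map_add, map_add, map_pow, expand_X, map_one]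
  ring

theorem root_frob (L : Type) [Field L] (p a : ℕ) [Fact p.Prime] [CharP L p] (w : L)
    (hw : w ^ 2 + w + 1 = 0) : (w ^ (p ^ a)) ^ 2 + w ^ (p ^ a) + 1 = 0 := by
  have h : (w ^ 2 + w + 1) ^ (p ^ a) = 0 := by
    rw [hw]
    exact zero_pow (pow_ne_zero _ (Fact.out : p.Prime).ne_zero)
  rw [add_pow_char_pow, add_pow_char_pow, one_pow] at h
  rw [← h]
  ring

/-- If `(X - v) ^ s ∣ ∑_{j < s} X ^ j A_j(X ^ q)`, `q = p ^ a ≥ s`, then all `A_j(v ^ q) = 0`. -/
theorem block_root (L : Type) [Field L] (p a : ℕ) [Fact p.Prime] [CharP L p] (v : L)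
    (A : ℕ → L[X]) (s : ℕ) (hs : s ≤ p ^ a)
    (h : (X - C v) ^ s ∣ ∑ j ∈ range s, X ^ j * expand L (p ^ a) (A j)) :
    ∀ j < s, (A j).eval (v ^ (p ^ a)) = 0 := by
  have h1 : (X : L[X]) ^ (p ^ a) - C (v ^ (p ^ a)) = (X - C v) ^ (p ^ a) := by
    rw [sub_pow_char_pow, C_pow]
  have h2 : ∀ j, (X - C v) ^ s ∣
      expand L (p ^ a) (A j) - C ((A j).eval (v ^ (p ^ a))) := by
    intro j
    obtain ⟨B, hB⟩ := X_sub_C_dvd_sub_C_eval (a := v ^ (p ^ a)) (p := A j)
    have h3 := congrArg (expand L (p ^ a)) hB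
    rw [map_sub, map_mul, map_sub, expand_X, expand_C, expand_C, h1] at h3
    rw [h3]
    exact Dvd.dvd.mul_right (pow_dvd_pow _ hs) _
  set R : L[X] := ∑ j ∈ range s, C ((A j).eval (v ^ (p ^ a))) * X ^ j with hR
  have h3 : (X - C v) ^ s ∣ R := by
    have h4 : R = ∑ j ∈ range s, X ^ j * expand L (p ^ a) (A j) -
        ∑ j ∈ range s, X ^ j * (expand L (p ^ a) (A j) - C ((A j).eval (v ^ (p ^ a)))) := by
      rw [hR, ← Finset.sum_sub_distrib]
      refine Finset.sum_congr rfl fun j _ => ?_
      ring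
    rw [h4]
    exact dvd_sub h (Finset.dvd_sum fun j _ => Dvd.dvd.mul_left (h2 j) _)
  have hcoef : ∀ n, R.coeff n = if n < s then (A n).eval (v ^ (p ^ a)) else 0 := by
    intro n
    rw [hR, Polynomial.finsetSum_coeff]
    simp only [coeff_C_mul_X_pow]
    rw [Finset.sum_ite_eq (range s) n]
    simp only [Finset.mem_range]
  have h4 : R = 0 := by
    refine eq_zero_of_dvd_of_degree_lt h3 ?_
    have h5 : ((X - C v : L[X]) ^ s).degree = s := by
      rw [degree_pow, degree_X_sub_C]
      simp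
    rw [h5, degree_lt_iff_coeff_zero]
    intro n hn
    rw [hcoef, if_neg (by omega)]
  intro j hj
  have h5 := hcoef j
  rw [h4, coeff_zero, if_pos hj] at h5
  exact h5.symm

theorem f_dvd (L : Type) [Field L] (u : L) (hu : u ^ 2 + u + 1 = 0) (hne : u ≠ u ^ 2) (A : L[X])
    (h1 : A.eval u = 0) (h2 : A.eval (u ^ 2) = 0) : (X ^ 2 + X + 1 : L[X]) ∣ A := by
  have hfac : (X ^ 2 + X + 1 : L[X]) = (X - C u) * (X - C (u ^ 2)) := by
    have hu2 : u ^ 2 = -u - 1 := by linear_combination hu
    have e1 : (C u * C (u ^ 2) : L[X]) = 1 := by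
      rw [← C_mul, ← pow_succ', cube_root L u hu, C_1]
    have e2 : (C u + C (u ^ 2) : L[X]) = -1 := by
      rw [← C_add, hu2]
      have : u + (-u - 1) = -1 := by ring
      rw [this]
      simp
    have e3 : (X - C u) * (X - C (u ^ 2)) =
        X ^ 2 - (C u + C (u ^ 2)) * X + C u * C (u ^ 2) := by ring
    rw [e3, e1, e2]
    ring
  rw [hfac]
  refine IsCoprime.mul_dvd ?_ (dvd_iff_isRoot.mpr h1) (dvd_iff_isRoot.mpr h2)
  exact isCoprime_X_sub_C_of_isUnit_sub (sub_ne_zero.mpr hne).isUnit

/-- The window property passes from `t` to `t * p ^ a`. -/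
theorem win_mul (L : Type) [Field L] (p a : ℕ) [hp : Fact p.Prime] [CharP L p] (hp3 : p ≠ 3)
    (w : L) (hw : w ^ 2 + w + 1 = 0) (t s : ℕ) (hs : s ≤ t * p ^ a)
    (hW1 : Win L t (s / p ^ a)) (hW2 : s % p ^ a ≠ 0 → Win L t (s / p ^ a + 1)) :
    Win L (t * p ^ a) s := by
  intro G hdvd hhigh hmid
  set q := p ^ a with hq
  have hq0 : 0 < q := pow_pos hp.out.pos a
  have h3 : (3 : L) ≠ 0 := by
    intro h0
    have h1 : ((3 : ℕ) : L) = 0 := by exact_mod_cast h0
    rw [CharP.cast_eq_zero_iff L p] at h1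
    exact hp3 ((Nat.prime_dvd_prime_iff_eq hp.out Nat.prime_three).mp h1)
  have hqc : Nat.Coprime q 3 :=
    Nat.Coprime.pow_left a ((Nat.coprime_primes hp.out Nat.prime_three).mpr hp3)
  have hne : w ^ q ≠ (w ^ 2) ^ q := root_pow_ne L h3 w hw q hqc
  set f : L[X] := X ^ 2 + X + 1 with hf
  have hf0 : f ≠ 0 := by
    have : f.coeff 2 = 1 := by
      rw [hf]
      simp [coeff_one, coeff_X]
    intro h0
    rw [h0] at this
    simp at this
  obtain ⟨P, rfl⟩ := hdvd
  set s1 := s / q with hs1
  set s' := s % q with hs'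
  have hs'q : s' < q := Nat.mod_lt s hq0
  have hseq : s = s' + q * s1 := (Nat.mod_add_div s q).symm
  obtain ⟨A, hA⟩ := exists_block hq0 (f ^ s' * P)
  have hG : f ^ s * P = ∑ j ∈ range q, X ^ j * expand L q (f ^ s1 * A j) := by
    have h1 : f ^ s * P = expand L q (f ^ s1) * (f ^ s' * P) := by
      rw [hseq, pow_add, pow_mul, frob_f L p a, map_pow]
      ring
    rw [h1, hA, Finset.mul_sum]
    refine Finset.sum_congr rfl fun j _ => ?_
    rw [map_mul]
    ring
  have hco : ∀ i < q, ∀ l, (f ^ s * P).coeff (i + q * l) = (f ^ s1 * A i).coeff l := by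
    intro i hi l
    rw [hG, coeff_block hq0 _ _ _ hi]
  have hNt : t * q = q * t := mul_comm t q
  have hs1t : s1 ≤ t := by
    rw [hs1]
    exact Nat.div_le_of_le_mul (by rw [← hNt]; exact hs)
  -- the blocks with `s' ≤ i`
  have hbig : ∀ i, s' ≤ i → i < q → A i = 0 := by
    intro i hi hiq
    have h1 : f ^ s1 * A i = 0 := by
      refine hW1 _ (dvd_mul_right _ _) ?_ ?_
      · intro l hl
        rw [← hco i hiq l]
        apply hhigh
        have : q * (s1 + t) ≤ q * l := Nat.mul_le_mul_left q hl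
        rw [hseq, hNt]
        rw [mul_add] at this
        omega
      · intro l hl hlt
        rw [← hco i hiq l]
        apply hmid
        · have : q * s1 ≤ q * l := Nat.mul_le_mul_left q hl
          omega
        · have : q * (l + 1) ≤ q * t := Nat.mul_le_mul_left q hlt
          rw [mul_add, mul_one] at this
          omega
    exact (mul_eq_zero.mp h1).resolve_left (pow_ne_zero _ hf0)
  have hH : f ^ s' * P = ∑ j ∈ range s', X ^ j * expand L q (A j) := by
    rw [hA]
    refine (Finset.sum_subset (Finset.range_subset_range.mpr hs'q.le) ?_).symm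
    intro j hj hj'
    rw [Finset.mem_range] at hj hj'
    rw [hbig j (by omega) hj, map_zero, mul_zero]
  -- the blocks with `i < s'`
  have hroot : ∀ v : L, v ^ 2 + v + 1 = 0 → ∀ j < s', (A j).eval (v ^ q) = 0 := by
    intro v hv
    refine block_root L p a v A s' hs'q.le ?_
    rw [← hq, ← hH]
    have h1 : X - C v ∣ f := by
      rw [dvd_iff_isRoot]
      rw [hf]
      simpa using hv
    exact Dvd.dvd.mul_right (pow_dvd_pow_of_dvd h1 s') P
  have hw2 : (w ^ 2) ^ 2 + w ^ 2 + 1 = 0 := by
    have h1 := cube_root L w hw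
    linear_combination hw + w * h1
  have hsmall : ∀ i < s', A i = 0 := by
    intro i hi
    have h1 := hroot w hw i hi
    have h2 := hroot (w ^ 2) hw2 i hi
    have h4 : (w ^ 2) ^ q = (w ^ q) ^ 2 := by ring
    rw [h4] at h2 hne
    have h5 : f ∣ A i := f_dvd L (w ^ q) (root_frob L p a w hw) hne (A i) h1 h2
    have hs1t' : s1 < t := by
      by_contra hc
      have h6 : q * t ≤ q * s1 := Nat.mul_le_mul_left q (by omega)
      rw [hNt] at hs
      omega
    have h6 : f ^ s1 * A i = 0 := by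
      refine hW2 (by omega) _ ?_ ?_ ?_
      · rw [pow_succ]
        exact mul_dvd_mul_left _ h5
      · intro l hl
        rw [← hco i (by omega) l]
        apply hhigh
        have : q * (s1 + 1 + t) ≤ q * l := Nat.mul_le_mul_left q hl
        rw [hseq, hNt]
        rw [mul_add, mul_add, mul_one] at this
        omega
      · intro l hl hlt
        rw [← hco i (by omega) l]
        apply hmid
        · have : q * (s1 + 1) ≤ q * l := Nat.mul_le_mul_left q hl
          rw [mul_add, mul_one] at this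
          omega
        · have : q * (l + 1) ≤ q * t := Nat.mul_le_mul_left q hlt
          rw [mul_add, mul_one] at this
          omega
    exact (mul_eq_zero.mp h6).resolve_left (pow_ne_zero _ hf0)
  rw [hG]
  refine Finset.sum_eq_zero fun j hj => ?_
  rw [Finset.mem_range] at hj
  have h1 : A j = 0 := by
    by_cases h : j < s'
    · exact hsmall j h
    · exact hbig j (by omega) hj
  rw [h1, mul_zero, map_zero, mul_zero]

end Pool.Agent.Lib.MP_c1a8e2_al
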